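import Mathlib
import Pool.Agent.Helper602.MK.J3

set_option autoImplicit false

/-! Primes with prescribed leading or final digits. -/

namespace Pool.Agent.H426R3.CP

open Finset

/-- the primes with `l` decimal digits -/
def PL (l : ℕ) : Finset ℕ := (range (10 ^ l)).filter (fun p => p.Prime ∧ 10 ^ (l - 1) ≤ p)

/-- the Brun-Titchmarsh property with constant `C` -/
def BTC (C : ℝ) : Prop := ∀ a q N : ℕ, 1 ≤ q → 2 ≤ N →
  (((range N).filter (fun t => (a + t * q).Prime)).card : ℝ) ≤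
    C * ((q : ℝ) / (Nat.totient q : ℝ)) * N / Real.log N

theorem exists_BTC : ∃ C : ℝ, 1 ≤ C ∧ BTC C := Pool.Agent.Helper602.MK.N_J3.J3

theorem two_le_ten_pow {E : ℕ} (hE : 1 ≤ E) : 2 ≤ 10 ^ E := by
  calc 2 ≤ 10 ^ 1 := by norm_num
    _ ≤ 10 ^ E := Nat.pow_le_pow_right (by norm_num) hE

theorem card_top {C : ℝ} (hC : BTC C) {E : ℕ} (hE : 1 ≤ E) (l u : ℕ) :
    (((PL l).filter (fun p => p / 10 ^ E = u)).card : ℝ) ≤ C * (10 ^ E : ℕ) / Real.log (10 ^ E : ℕ) := by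
  have h := hC (u * 10 ^ E) 1 (10 ^ E) le_rfl (two_le_ten_pow hE)
  simp only [Nat.cast_one, Nat.totient_one, div_one, mul_one] at h
  refine le_trans ?_ h
  refine Nat.cast_le.mpr (Finset.card_le_card_of_injOn (fun p => p % 10 ^ E) ?_ ?_)
  · intro p hp
    rw [Finset.mem_coe, Finset.mem_filter] at hp
    obtain ⟨hp1, hp2⟩ := hp
    rw [Finset.mem_coe, Finset.mem_filter]
    refine ⟨Finset.mem_range.mpr (Nat.mod_lt _ (by positivity)), ?_⟩
    have e : u * 10 ^ E + p % 10 ^ E = p := by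
      rw [← hp2, mul_comm]; exact Nat.div_add_mod p (10 ^ E)
    rw [e]
    exact (Finset.mem_filter.mp hp1).2.1
  · intro p hp p' hp' hpp
    rw [Finset.mem_coe, Finset.mem_filter] at hp hp'
    have e := Nat.div_add_mod p (10 ^ E)
    have e' := Nat.div_add_mod p' (10 ^ E)
    simp only at hpp
    rw [hp.2] at e
    rw [hp'.2, ← hpp] at e'
    exact e.symm.trans e'

theorem tot_ten {E : ℕ} (hE : 1 ≤ E) : ((10 ^ E : ℕ) : ℝ) / (Nat.totient (10 ^ E) : ℝ) = 5 / 2 := by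
  have h := Nat.totient_eq_mul_prod_factors (10 ^ E)
  have hpf : (10 ^ E).primeFactors = {2, 5} := by
    rw [Nat.primeFactors_pow _ (by omega)]
    have : (10 : ℕ) = 2 * 5 := by norm_num
    rw [this, Nat.primeFactors_mul (by norm_num) (by norm_num),
      Nat.Prime.primeFactors (by norm_num), Nat.Prime.primeFactors (by norm_num)]
    rfl
  rw [hpf, Finset.prod_pair (by norm_num)] at h
  have h1 : (Nat.totient (10 ^ E) : ℝ) = ((10 ^ E : ℕ) : ℝ) * (2 / 5) := by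
    have h2 := congrArg (fun z : ℚ => (z : ℝ)) h
    push_cast at h2 ⊢
    rw [h2]; norm_num
  rw [h1]
  have : ((10 ^ E : ℕ) : ℝ) ≠ 0 := by positivity
  field_simp

theorem card_ap {C : ℝ} (hC : BTC C) {E1 E2 : ℕ} (hE1 : 1 ≤ E1) (hE : E1 < E2) (l u r : ℕ) :
    (((PL l).filter (fun p => p / 10 ^ E2 = u ∧ p % 10 ^ E1 = r)).card : ℝ) ≤
      C * (5 / 2) * (10 ^ (E2 - E1) : ℕ) / Real.log (10 ^ (E2 - E1) : ℕ) := by
  have h := hC (u * 10 ^ E2 + r) (10 ^ E1) (10 ^ (E2 - E1)) (Nat.pos_of_ne_zero (by positivity))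
    (two_le_ten_pow (by omega))
  rw [tot_ten hE1] at h
  refine le_trans ?_ h
  have hE2 : 10 ^ E2 = 10 ^ E1 * 10 ^ (E2 - E1) := by rw [← pow_add]; congr 1; omega
  have key : ∀ p, p / 10 ^ E2 = u → p % 10 ^ E1 = r →
      u * 10 ^ E2 + r + (p % 10 ^ E2 / 10 ^ E1) * 10 ^ E1 = p := by
    intro p h1 h2
    have e1 := Nat.div_add_mod p (10 ^ E2)
    have e2 := Nat.div_add_mod (p % 10 ^ E2) (10 ^ E1)
    have e3 : p % 10 ^ E2 % 10 ^ E1 = r := by
      rw [← h2]
      exact Nat.mod_mod_of_dvd p (by rw [hE2]; exact Dvd.intro _ rfl)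
    rw [e3] at e2
    rw [h1] at e1
    nlinarith
  refine Nat.cast_le.mpr (Finset.card_le_card_of_injOn (fun p => p % 10 ^ E2 / 10 ^ E1) ?_ ?_)
  · intro p hp
    rw [Finset.mem_coe, Finset.mem_filter] at hp
    obtain ⟨hp1, hp2, hp3⟩ := hp
    rw [Finset.mem_coe, Finset.mem_filter]
    refine ⟨Finset.mem_range.mpr ?_, ?_⟩
    · rw [Nat.div_lt_iff_lt_mul (by positivity), mul_comm, ← hE2]
      exact Nat.mod_lt _ (by positivity)
    · rw [key p hp2 hp3]
      exact (Finset.mem_filter.mp hp1).2.1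
  · intro p hp p' hp' hpp
    rw [Finset.mem_coe, Finset.mem_filter] at hp hp'
    simp only at hpp
    have e := key p hp.2.1 hp.2.2
    have e' := key p' hp'.2.1 hp'.2.2
    rw [← hpp] at e'
    exact e.symm.trans e'

theorem sum_top {C : ℝ} (hC : BTC C) {E l : ℕ} (hE : 1 ≤ E) (hl : E ≤ l) (Φ : ℕ → ℝ) (hΦ : ∀ v, 0 ≤ Φ v) :
    ∑ p ∈ PL l, Φ (p / 10 ^ E) ≤ C * (10 ^ E : ℕ) / Real.log (10 ^ E : ℕ) *
      ∑ v ∈ range (10 ^ (l - E)), Φ v := by
  have hmaps : ∀ p ∈ PL l, p / 10 ^ E ∈ range (10 ^ (l - E)) := by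
    intro p hp
    have h1 := Finset.mem_range.mp (Finset.mem_filter.mp hp).1
    rw [Finset.mem_range, Nat.div_lt_iff_lt_mul (by positivity), ← pow_add]
    rwa [Nat.sub_add_cancel hl]
  rw [← Finset.sum_fiberwise_of_maps_to hmaps, Finset.mul_sum]
  refine Finset.sum_le_sum fun v _ => ?_
  have h1 : ∑ p ∈ (PL l).filter (fun p => p / 10 ^ E = v), Φ (p / 10 ^ E) =
      ((PL l).filter (fun p => p / 10 ^ E = v)).card * Φ v := by
    rw [Finset.sum_congr rfl (g := fun _ => Φ v) (fun p hp => by rw [(Finset.mem_filter.mp hp).2])]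
    simp
  rw [h1]
  exact mul_le_mul_of_nonneg_right (card_top hC hE l v) (hΦ v)

theorem sum_ap {C : ℝ} (hC : BTC C) {E1 E2 l : ℕ} (hE1 : 1 ≤ E1) (hE : E1 < E2) (hl : E2 ≤ l)
    (Ψ : ℕ → ℕ → ℝ) (hΨ : ∀ u r, 0 ≤ Ψ u r) :
    ∑ p ∈ PL l, Ψ (p / 10 ^ E2) (p % 10 ^ E1) ≤
      C * (5 / 2) * (10 ^ (E2 - E1) : ℕ) / Real.log (10 ^ (E2 - E1) : ℕ) *
      ∑ u ∈ range (10 ^ (l - E2)), ∑ r ∈ range (10 ^ E1), Ψ u r := by
  have hmaps : ∀ p ∈ PL l, (p / 10 ^ E2, p % 10 ^ E1) ∈ range (10 ^ (l - E2)) ×ˢ range (10 ^ E1) := by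
    intro p hp
    have h1 := Finset.mem_range.mp (Finset.mem_filter.mp hp).1
    rw [Finset.mem_product, Finset.mem_range, Nat.div_lt_iff_lt_mul (by positivity), ← pow_add,
      Nat.sub_add_cancel hl]
    exact ⟨h1, Finset.mem_range.mpr (Nat.mod_lt _ (by positivity))⟩
  rw [← Finset.sum_fiberwise_of_maps_to hmaps, ← Finset.sum_product', Finset.mul_sum]
  refine Finset.sum_le_sum fun v _ => ?_
  have h1 : ∑ p ∈ (PL l).filter (fun p => (p / 10 ^ E2, p % 10 ^ E1) = v), Ψ (p / 10 ^ E2) (p % 10 ^ E1) =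
      ((PL l).filter (fun p => (p / 10 ^ E2, p % 10 ^ E1) = v)).card * Ψ v.1 v.2 := by
    rw [Finset.sum_congr rfl (g := fun _ => Ψ v.1 v.2) (fun p hp => by
      rw [← (Finset.mem_filter.mp hp).2])]
    simp
  rw [h1]
  refine mul_le_mul_of_nonneg_right ?_ (hΨ _ _)
  have h2 : (PL l).filter (fun p => (p / 10 ^ E2, p % 10 ^ E1) = v) =
      (PL l).filter (fun p => p / 10 ^ E2 = v.1 ∧ p % 10 ^ E1 = v.2) := by
    ext p
    simp only [Finset.mem_filter, Prod.ext_iff]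
  rw [h2]
  exact card_ap hC hE1 hE l v.1 v.2

theorem theta_sub_le (l : ℕ) (hl : 1 ≤ l) :
    Chebyshev.theta ((10 ^ l : ℕ) : ℝ) - Chebyshev.theta ((10 ^ (l - 1) : ℕ) : ℝ) ≤
      ((PL l).card + 1) * Real.log ((10 ^ l : ℕ) : ℝ) := by
  rw [Chebyshev.theta_eq_sum_Icc, Chebyshev.theta_eq_sum_Icc, Nat.floor_natCast, Nat.floor_natCast]
  have hsub : (Finset.Icc 0 (10 ^ (l - 1))).filter Nat.Prime ⊆ (Finset.Icc 0 (10 ^ l)).filter Nat.Prime := by
    refine Finset.filter_subset_filter _ (Finset.Icc_subset_Icc_right ?_)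
    exact Nat.pow_le_pow_right (by norm_num) (by omega)
  rw [← Finset.sum_sdiff hsub, add_sub_cancel_right]
  have h1 : ((Finset.Icc 0 (10 ^ l)).filter Nat.Prime) \ ((Finset.Icc 0 (10 ^ (l - 1))).filter Nat.Prime) ⊆
      insert (10 ^ l) (PL l) := by
    intro p hp
    rw [Finset.mem_sdiff, Finset.mem_filter, Finset.mem_filter, Finset.mem_Icc, Finset.mem_Icc] at hp
    obtain ⟨⟨⟨_, h2⟩, h3⟩, h4⟩ := hp
    rw [Finset.mem_insert]
    rcases Nat.lt_or_ge p (10 ^ l) with h5 | h5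
    · right
      unfold PL
      rw [Finset.mem_filter, Finset.mem_range]
      refine ⟨h5, h3, ?_⟩
      by_contra h6
      exact h4 ⟨⟨Nat.zero_le _, by omega⟩, h3⟩
    · left; omega
  have h2 : ∀ p ∈ ((Finset.Icc 0 (10 ^ l)).filter Nat.Prime) \ ((Finset.Icc 0 (10 ^ (l - 1))).filter Nat.Prime),
      Real.log p ≤ Real.log ((10 ^ l : ℕ) : ℝ) := by
    intro p hp
    rw [Finset.mem_sdiff, Finset.mem_filter, Finset.mem_Icc] at hp
    exact Real.log_le_log (by exact_mod_cast hp.1.2.pos) (by exact_mod_cast hp.1.1.2)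
  refine (Finset.sum_le_card_nsmul _ _ _ h2).trans ?_
  rw [nsmul_eq_mul]
  refine mul_le_mul_of_nonneg_right ?_ (Real.log_natCast_nonneg _)
  have h3 := (Finset.card_le_card h1).trans (Finset.card_insert_le _ _)
  exact_mod_cast h3

theorem PL_card : ∃ l0 : ℕ, ∀ l : ℕ, l0 ≤ l → (10 ^ l : ℝ) / (5 * l) ≤ (PL l).card := by
  -- lower bound: the main term
  have hlim : Filter.Tendsto (fun l : ℕ => (l : ℝ) ^ 1 / (Real.sqrt 10) ^ l) Filter.atTop (nhds 0) :=
    tendsto_pow_const_div_const_pow_of_one_lt 1 (by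
      rw [Real.lt_sqrt (by norm_num)]; norm_num)
  have hev := hlim.eventually_lt_const (show (0 : ℝ) < 1 / 1000 by norm_num)
  obtain ⟨l0, hl0⟩ := Filter.eventually_atTop.mp hev
  refine ⟨max l0 1, fun l hl => ?_⟩
  have hl1 : 1 ≤ l := (le_max_right _ _).trans hl
  have h1 := hl0 l ((le_max_left _ _).trans hl)
  have h2 := theta_sub_le l hl1
  have h3 := Chebyshev.theta_ge (10 ^ l)
  have h4 := Chebyshev.theta_le_log4_mul_x (x := ((10 ^ (l - 1) : ℕ) : ℝ)) (by positivity)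
  set X : ℝ := (10 : ℝ) ^ l with hX
  have hs : 0 < Real.sqrt 10 ^ l := by positivity
  have hlr : (1 : ℝ) ≤ l := by exact_mod_cast hl1
  have eX : ((10 ^ l : ℕ) : ℝ) = X := by rw [hX]; push_cast; rfl
  have eX1 : ((10 ^ (l - 1) : ℕ) : ℝ) = X / 10 := by
    rw [hX, eq_div_iff (by norm_num)]
    push_cast
    rw [← pow_succ]
    congr 1
    omega
  have hsq : Real.sqrt X = Real.sqrt 10 ^ l := by
    have : X = (Real.sqrt 10 ^ l) ^ 2 := by
      rw [← pow_mul, mul_comm, pow_mul, Real.sq_sqrt (by norm_num)]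
    rw [this, Real.sqrt_sq hs.le]
  have hXs : X = Real.sqrt 10 ^ l * Real.sqrt 10 ^ l := by
    rw [← mul_pow, Real.mul_self_sqrt (by norm_num)]
  have h5 : (l : ℝ) ≤ 1 / 1000 * Real.sqrt 10 ^ l := by
    rw [pow_one, div_lt_iff₀ hs] at h1
    exact h1.le
  have hlog10 : Real.log 10 ≤ 2.3106 := by
    have h6 := Real.log_two_lt_d9
    have h7 : 3 * Real.log 10 ≤ 10 * Real.log 2 := by
      have e1 : 3 * Real.log 10 = Real.log (10 ^ 3) := by rw [Real.log_pow]; norm_num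
      have e2 : 10 * Real.log 2 = Real.log (2 ^ 10) := by rw [Real.log_pow]; norm_num
      rw [e1, e2]
      exact Real.log_le_log (by norm_num) (by norm_num)
    linarith
  have hlogX : Real.log X = l * Real.log 10 := by rw [hX, Real.log_pow]
  have hX1 : 1 ≤ X := by rw [hX]; exact one_le_pow₀ (by norm_num)
  rw [eX1] at h4
  rw [eX, eX1] at h2
  have h3' : X * Real.log 2 - Real.log (X + 1) - 2 * Real.sqrt X * Real.log X ≤ Chebyshev.theta X := by
    have := h3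
    rw [eX] at this
    exact this
  have hlog2 := Real.log_two_gt_d9
  have hlog4 : Real.log 4 ≤ 1.3863 := by
    have : Real.log 4 = 2 * Real.log 2 := by
      rw [← Real.log_rpow (by norm_num)]; norm_num
    rw [this]
    linarith [Real.log_two_lt_d9]
  have hXp : Real.log (X + 1) ≤ Real.log X + 1 := by
    have : X + 1 ≤ X * Real.exp 1 := by
      have := Real.add_one_le_exp (1 : ℝ)
      nlinarith
    calc Real.log (X + 1) ≤ Real.log (X * Real.exp 1) := Real.log_le_log (by linarith) this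
      _ = Real.log X + 1 := by rw [Real.log_mul (by linarith) (Real.exp_pos 1).ne', Real.log_exp]
  have hs1 : 1 ≤ Real.sqrt 10 ^ l := one_le_pow₀ (by rw [Real.one_le_sqrt]; norm_num)
  have hlX : Real.log X ≤ 2.3106 * l := by
    rw [hlogX, mul_comm]; exact mul_le_mul_of_nonneg_right hlog10 (by linarith)
  have hlX0 : 0 ≤ Real.log X := Real.log_nonneg hX1
  have hlXs : Real.log X ≤ 0.0024 * Real.sqrt 10 ^ l := by linarith
  -- combine
  have h7 : Real.sqrt 10 ^ l ≤ X := by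
    rw [hXs]; exact le_mul_of_one_le_left hs.le hs1
  have h6 : 2 * Real.sqrt X * Real.log X ≤ 0.01 * X := by
    rw [hsq]
    calc 2 * Real.sqrt 10 ^ l * Real.log X ≤ 2 * Real.sqrt 10 ^ l * (0.0024 * Real.sqrt 10 ^ l) :=
          mul_le_mul_of_nonneg_left hlXs (by positivity)
      _ = 0.0048 * (Real.sqrt 10 ^ l * Real.sqrt 10 ^ l) := by ring
      _ = 0.0048 * X := by rw [← hXs]
      _ ≤ 0.01 * X := by linarith
  have h8 : Real.log (X + 1) ≤ 0.0024 * X + 1 := by linarith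
  have h9 : 1000 ≤ X := by linarith
  have g1 : 0.6931 * X ≤ X * Real.log 2 := by
    rw [mul_comm]; exact mul_le_mul_of_nonneg_left (by linarith) (by linarith)
  have g2 : Real.log 4 * (X / 10) ≤ 1.3863 * (X / 10) := mul_le_mul_of_nonneg_right hlog4 (by linarith)
  have h10 : 0.53 * X ≤ ((PL l).card + 1) * Real.log X := by linarith
  have h11 : 0.5 * X ≤ (PL l).card * Real.log X := by
    have e : (((PL l).card : ℝ) + 1) * Real.log X = (PL l).card * Real.log X + Real.log X := by ring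
    rw [e] at h10
    linarith
  have h12 : (0.5 * X) ≤ (PL l).card * (2.3106 * l) := by
    refine h11.trans (mul_le_mul_of_nonneg_left hlX (Nat.cast_nonneg _))
  rw [div_le_iff₀ (by positivity)]
  have h13 : (0 : ℝ) ≤ (PL l).card * l := by positivity
  have e2 : ((PL l).card : ℝ) * (2.3106 * l) = 2.3106 * ((PL l).card * l) := by ring
  have e3 : ((PL l).card : ℝ) * (5 * l) = 5 * ((PL l).card * l) := by ring
  rw [e2] at h12
  rw [e3]
  linarith

end Pool.Agent.H426R3.CP
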