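import Mathlib
import Pool.Agent.H426R3.SN.Occ

set_option autoImplicit false

/-! Second and fourth moments of digit counts. -/

namespace Pool.Agent.H426R3.CP

open Finset Pool.Agent.H426R3.SN

theorem sum_k_G {B : ℕ} (q w : ℕ) (hB : 0 < B) : ∑ k ∈ range B, G B q k w = 0 := by
  unfold G
  rw [Finset.sum_sub_distrib, ← Finset.mul_sum]
  have : ∑ k ∈ range B, (occ B q k w : ℤ) = q := by
    have h : ∑ k ∈ range B, occ B q k w = q := by
      have h1 : ∀ k ∈ range B, occ B q k w = ∑ j ∈ range q, if w / B ^ j % B = k then 1 else 0 :=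
        fun k _ => occ_eq_sum B q k w
      rw [Finset.sum_congr rfl h1, Finset.sum_comm]
      have h2 : ∀ j ∈ range q, ∑ k ∈ range B, (if w / B ^ j % B = k then 1 else 0) = 1 := by
        intro j _
        rw [Finset.sum_ite_eq, if_pos (Finset.mem_range.mpr (Nat.mod_lt _ hB))]
      rw [Finset.sum_congr rfl h2]
      simp
    exact_mod_cast h
  rw [this]
  simp

/-- linear forms in the counts -/
theorem sum_lin {B : ℕ} (y : ℕ → ℤ) (q : ℕ) :
    ∑ w ∈ range (B ^ q), ∑ k ∈ range B, y k * G B q k w = 0 := by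
  rw [Finset.sum_comm]
  refine Finset.sum_eq_zero fun k hk => ?_
  rw [← Finset.mul_sum, sum_G (Finset.mem_range.mp hk), mul_zero]

theorem lin_cons {B : ℕ} (y : ℕ → ℤ) (hy : ∑ k ∈ range B, y k = 0) {q a w : ℕ} (ha : a < B) :
    ∑ k ∈ range B, y k * G B (q + 1) k (a + B * w) = B * y a + ∑ k ∈ range B, y k * G B q k w := by
  have h : ∀ k ∈ range B, y k * G B (q + 1) k (a + B * w) =
      (if a = k then (B : ℤ) * y k else 0) - y k + y k * G B q k w := by
    intro k _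
    rw [G_cons ha]
    split_ifs <;> ring
  rw [Finset.sum_congr rfl h, Finset.sum_add_distrib, Finset.sum_sub_distrib, hy,
    Finset.sum_ite_eq, if_pos (Finset.mem_range.mpr ha)]
  ring

theorem sum_lin_sq {B : ℕ} (y : ℕ → ℤ) (hy : ∑ k ∈ range B, y k = 0) (q : ℕ) :
    ∑ w ∈ range (B ^ q), (∑ k ∈ range B, y k * G B q k w) ^ 2 =
      q * B ^ (q + 1) * ∑ k ∈ range B, (y k) ^ 2 := by
  induction q with
  | zero => simp [G, occ_zero]
  | succ q ih =>
    rw [pow_succ, mul_comm, sum_range_mul']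
    have h : ∀ w ∈ range (B ^ q), ∑ a ∈ range B, (∑ k ∈ range B, y k * G B (q + 1) k (a + B * w)) ^ 2 =
        (B : ℤ) ^ 2 * (∑ k ∈ range B, (y k) ^ 2) + B * (∑ k ∈ range B, y k * G B q k w) ^ 2 := by
      intro w _
      have h1 : ∀ a ∈ range B, (∑ k ∈ range B, y k * G B (q + 1) k (a + B * w)) ^ 2 =
          (B : ℤ) ^ 2 * (y a) ^ 2 + (2 * B * (∑ k ∈ range B, y k * G B q k w)) * y a +
            (∑ k ∈ range B, y k * G B q k w) ^ 2 := by
        intro a ha
        rw [lin_cons y hy (Finset.mem_range.mp ha)]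
        ring
      rw [Finset.sum_congr rfl h1, Finset.sum_add_distrib, Finset.sum_add_distrib, ← Finset.mul_sum,
        ← Finset.mul_sum, hy]
      simp
    rw [Finset.sum_congr rfl h, Finset.sum_add_distrib,
      ← Finset.mul_sum (f := fun w => (∑ k ∈ range B, y k * G B q k w) ^ 2), ih]
    simp only [Finset.sum_const, Finset.card_range, nsmul_eq_mul]
    push_cast
    ring

/-- squared norm of the count vector -/
def nsq (B q w : ℕ) : ℤ := ∑ k ∈ range B, (G B q k w) ^ 2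

theorem nsq_nonneg (B q w : ℕ) : 0 ≤ nsq B q w := Finset.sum_nonneg fun _ _ => sq_nonneg _

theorem sum_nsq {B : ℕ} (q : ℕ) : ∑ w ∈ range (B ^ q), nsq B q w = q * B ^ (q + 1) * ((B : ℤ) - 1) := by
  unfold nsq
  rw [Finset.sum_comm, Finset.sum_congr rfl fun k hk => sum_G_sq (Finset.mem_range.mp hk)]
  simp only [Finset.sum_const, Finset.card_range, nsmul_eq_mul]
  ring

theorem nsq_cons {B q a w : ℕ} (ha : a < B) :
    nsq B (q + 1) (a + B * w) = nsq B q w + 2 * B * G B q a w + B * (B - 1) := by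
  have hB : 0 < B := by omega
  unfold nsq
  have h : ∀ k ∈ range B, (G B (q + 1) k (a + B * w)) ^ 2 =
      (if a = k then ((B : ℤ) ^ 2 - 2 * B + 2 * B * G B q k w) else 0) + 1 - 2 * G B q k w +
        (G B q k w) ^ 2 := by
    intro k _
    rw [G_cons ha]
    split_ifs <;> ring
  rw [Finset.sum_congr rfl h, Finset.sum_add_distrib, Finset.sum_sub_distrib, Finset.sum_add_distrib,
    Finset.sum_ite_eq, if_pos (Finset.mem_range.mpr ha), ← Finset.mul_sum, sum_k_G q w hB]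
  simp
  ring

theorem sum_nsq_var {B : ℕ} (hB : 0 < B) (q : ℕ) :
    ∑ w ∈ range (B ^ q), (nsq B q w - q * B * (B - 1)) ^ 2 = 2 * q * (q - 1) * B ^ (q + 2) * ((B : ℤ) - 1) := by
  induction q with
  | zero => simp [nsq, G, occ_zero]
  | succ q ih =>
    rw [pow_succ, mul_comm, sum_range_mul']
    have h : ∀ w ∈ range (B ^ q), ∑ a ∈ range B, (nsq B (q + 1) (a + B * w) - ((q + 1 : ℕ) : ℤ) * B * (B - 1)) ^ 2 =
        (B : ℤ) * (nsq B q w - q * B * (B - 1)) ^ 2 + 4 * B ^ 2 * nsq B q w := by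
      intro w _
      have h1 : ∀ a ∈ range B, (nsq B (q + 1) (a + B * w) - ((q + 1 : ℕ) : ℤ) * B * (B - 1)) ^ 2 =
          (nsq B q w - q * B * (B - 1)) ^ 2 + (4 * B * (nsq B q w - q * B * (B - 1))) * G B q a w +
            4 * (B : ℤ) ^ 2 * (G B q a w) ^ 2 := by
        intro a ha
        rw [nsq_cons (Finset.mem_range.mp ha)]
        push_cast
        ring
      rw [Finset.sum_congr rfl h1, Finset.sum_add_distrib, Finset.sum_add_distrib, ← Finset.mul_sum,
        ← Finset.mul_sum, sum_k_G q w hB]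
      simp only [Finset.sum_const, Finset.card_range, nsmul_eq_mul]
      unfold nsq
      ring
    rw [Finset.sum_congr rfl h, Finset.sum_add_distrib, ← Finset.mul_sum, ← Finset.mul_sum, ih, sum_nsq]
    push_cast
    ring

/-- words with a small count vector are rare -/
theorem bad_card {B : ℕ} (hB : 4 ≤ B) {q : ℕ} (hq : 1 ≤ q) :
    B * ((range (B ^ q)).filter (fun w => 4 * nsq B q w < q * B ^ 2)).card ≤ 8 * B ^ q := by
  have hB' : (4 : ℤ) ≤ B := by exact_mod_cast hB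
  have hq' : (1 : ℤ) ≤ q := by exact_mod_cast hq
  set S := (range (B ^ q)).filter (fun w => 4 * nsq B q w < q * B ^ 2) with hS
  have h1 : ∀ w ∈ S, ((q : ℤ) * B ^ 2) ^ 2 ≤ 4 * (nsq B q w - q * B * (B - 1)) ^ 2 := by
    intro w hw
    rw [hS, Finset.mem_filter] at hw
    have h2 := hw.2
    have h3 : (q : ℤ) * B ^ 2 ≤ 2 * (q * B * (B - 1) - nsq B q w) := by
      have h4 : (q : ℤ) * B * 4 ≤ q * B * B := by
        have : (0 : ℤ) ≤ q * B := by positivity
        nlinarith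
      nlinarith
    have h5 : (0 : ℤ) ≤ (q : ℤ) * B ^ 2 := by positivity
    calc ((q : ℤ) * B ^ 2) ^ 2 ≤ (2 * (q * B * (B - 1) - nsq B q w)) ^ 2 := pow_le_pow_left₀ h5 h3 2
      _ = _ := by ring
  have h2 : (S.card : ℤ) * ((q : ℤ) * B ^ 2) ^ 2 ≤ 4 * (2 * q * (q - 1) * B ^ (q + 2) * ((B : ℤ) - 1)) := by
    calc (S.card : ℤ) * ((q : ℤ) * B ^ 2) ^ 2 = ∑ _w ∈ S, ((q : ℤ) * B ^ 2) ^ 2 := by simp
      _ ≤ ∑ w ∈ S, 4 * (nsq B q w - q * B * (B - 1)) ^ 2 := Finset.sum_le_sum h1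
      _ ≤ ∑ w ∈ range (B ^ q), 4 * (nsq B q w - q * B * (B - 1)) ^ 2 :=
          Finset.sum_le_sum_of_subset_of_nonneg (Finset.filter_subset _ _) fun _ _ _ => by positivity
      _ = _ := by rw [← Finset.mul_sum, sum_nsq_var (by omega)]
  have h3 : (B : ℤ) * S.card * (q ^ 2 * B ^ 3) ≤ 8 * B ^ q * (q ^ 2 * B ^ 3) := by
    have h4 : (4 : ℤ) * (2 * q * (q - 1) * B ^ (q + 2) * ((B : ℤ) - 1)) ≤ 8 * B ^ q * (q ^ 2 * B ^ 3) := by
      have e1 : (4 : ℤ) * (2 * q * (q - 1) * B ^ (q + 2) * ((B : ℤ) - 1)) =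
        8 * B ^ q * ((q * (q - 1)) * (B ^ 2 * (B - 1))) := by ring
      rw [e1]
      have e2 : (q : ℤ) * (q - 1) ≤ q ^ 2 := by nlinarith
      have e3 : (B : ℤ) ^ 2 * (B - 1) ≤ B ^ 3 := by nlinarith [sq_nonneg (B : ℤ)]
      have e4 : (0 : ℤ) ≤ (B : ℤ) ^ 2 * (B - 1) := mul_nonneg (by positivity) (by linarith)
      exact mul_le_mul_of_nonneg_left (mul_le_mul e2 e3 e4 (by positivity)) (by positivity)
    have e5 : (B : ℤ) * S.card * (q ^ 2 * B ^ 3) = (S.card : ℤ) * ((q : ℤ) * B ^ 2) ^ 2 := by ring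
    rw [e5]
    exact h2.trans h4
  have h4 : (0 : ℤ) < q ^ 2 * B ^ 3 := by positivity
  have h5 := le_of_mul_le_mul_right h3 h4
  exact_mod_cast h5

end Pool.Agent.H426R3.CP
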