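import Mathlib
import Pool.Agent.H426R3.CP.Mom
import Pool.Agent.H426R3.CP.BT

set_option autoImplicit false

/-! Averages over the primes with `l` digits. -/

namespace Pool.Agent.H426R3.CP

open Finset Pool.Agent.H426R3.SN

theorem occ_per {B : ℕ} (hB : 0 < B) (q k z y : ℕ) (hz : z < B ^ q) :
    occ B q k (z + B ^ q * y) = occ B q k z := by
  have := occ_add (D := B) (h1 := q) (h2 := 0) (k := k) (z := z) (y := y) hB hz
  simpa [occ_zero] using this

theorem G_per {B : ℕ} (hB : 0 < B) (q k z y : ℕ) (hz : z < B ^ q) :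
    G B q k (z + B ^ q * y) = G B q k z := by
  unfold G; rw [occ_per hB q k z y hz]

theorem G_add {B : ℕ} (hB : 0 < B) (q1 q2 k z y : ℕ) (hz : z < B ^ q1) :
    G B (q1 + q2) k (z + B ^ q1 * y) = G B q1 k z + G B q2 k y := by
  unfold G; rw [occ_add hB hz]; push_cast; ring

theorem G_mod {B : ℕ} (hB : 0 < B) (q k x : ℕ) : G B q k (x % B ^ q) = G B q k x := by
  have h := Nat.mod_add_div x (B ^ q)
  conv_rhs => rw [← h]
  rw [G_per hB q k _ _ (Nat.mod_lt _ (pow_pos hB q))]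

theorem G_split {B : ℕ} (hB : 0 < B) (q1 q2 k x : ℕ) :
    G B (q1 + q2) k x = G B q1 k x + G B q2 k (x / B ^ q1) := by
  have h := Nat.mod_add_div x (B ^ q1)
  conv_lhs => rw [← h]
  rw [G_add hB q1 q2 k _ _ (Nat.mod_lt _ (pow_pos hB q1)), G_mod hB]

theorem nsq_per {B : ℕ} (hB : 0 < B) (q z y : ℕ) (hz : z < B ^ q) :
    nsq B q (z + B ^ q * y) = nsq B q z := by
  unfold nsq
  exact Finset.sum_congr rfl fun k _ => by rw [G_per hB q k z y hz]

theorem sum_nsq_T {B : ℕ} (hB : 0 < B) (q T : ℕ) :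
    ∑ w ∈ range (B ^ q * T), nsq B q w = T * (q * B ^ (q + 1) * ((B : ℤ) - 1)) := by
  rw [sum_range_mul']
  have : ∀ y ∈ range T, ∑ a ∈ range (B ^ q), nsq B q (a + B ^ q * y) = q * B ^ (q + 1) * ((B : ℤ) - 1) := by
    intro y _
    rw [Finset.sum_congr rfl fun a ha => nsq_per hB q a y (Finset.mem_range.mp ha), sum_nsq]
  rw [Finset.sum_congr rfl this]
  simp

theorem sum_nsq_T_le {B : ℕ} (hB : 0 < B) (q T : ℕ) :
    (∑ w ∈ range (B ^ q * T), (nsq B q w : ℝ)) ≤ ((B ^ q * T : ℕ) : ℝ) * (q * (B : ℝ) ^ 2) := by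
  have h := sum_nsq_T hB q T
  have h2 : (∑ w ∈ range (B ^ q * T), (nsq B q w : ℝ)) = T * (q * (B : ℝ) ^ (q + 1) * ((B : ℝ) - 1)) := by
    exact_mod_cast congrArg (fun z : ℤ => (z : ℝ)) h
  rw [h2]
  push_cast
  have h3 : (T : ℝ) * (q * (B : ℝ) ^ (q + 1) * ((B : ℝ) - 1)) ≤ (T : ℝ) * (q * (B : ℝ) ^ (q + 1) * (B : ℝ)) := by
    refine mul_le_mul_of_nonneg_left (mul_le_mul_of_nonneg_left (by linarith) (by positivity)) (by positivity)
  refine h3.trans (le_of_eq (by ring))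

theorem bad_card_T {B : ℕ} (hB : 4 ≤ B) {q : ℕ} (hq : 1 ≤ q) (T : ℕ) :
    B * (∑ w ∈ range (B ^ q * T), if 4 * nsq B q w < q * B ^ 2 then 1 else 0) ≤ 8 * (B ^ q * T) := by
  rw [sum_range_mul']
  have : ∀ y ∈ range T, (∑ a ∈ range (B ^ q), if 4 * nsq B q (a + B ^ q * y) < q * B ^ 2 then 1 else 0) =
      ((range (B ^ q)).filter (fun w => 4 * nsq B q w < q * B ^ 2)).card := by
    intro y _
    rw [Finset.card_filter]
    exact Finset.sum_congr rfl fun a ha => by rw [nsq_per (by omega) q a y (Finset.mem_range.mp ha)]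
  rw [Finset.sum_congr rfl this]
  simp only [Finset.sum_const, Finset.card_range, smul_eq_mul]
  have h := bad_card hB hq
  calc B * (T * _) = T * (B * ((range (B ^ q)).filter (fun w => 4 * nsq B q w < q * B ^ 2)).card) := by ring
    _ ≤ T * (8 * B ^ q) := Nat.mul_le_mul_left _ h
    _ = _ := by ring

theorem abs_le_lam (x lam : ℝ) (hl : 0 < lam) : |x| ≤ lam / 2 * x ^ 2 + 1 / (2 * lam) := by
  have h : 0 ≤ (lam * |x| - 1) ^ 2 / (2 * lam) := by positivity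
  have e : (lam * |x| - 1) ^ 2 / (2 * lam) = lam / 2 * x ^ 2 + 1 / (2 * lam) - |x| := by
    rw [← sq_abs x]
    field_simp
    ring
  linarith

/-- first moments of products, from the second moments -/
theorem cross {B : ℕ} (hB : 0 < B) (H q u : ℕ) (lam : ℝ) (hl : 0 < lam) :
    (∑ a ∈ range (B ^ q), |((∑ k ∈ range B, G B H k u * G B q k a : ℤ) : ℝ)|) ≤
      lam / 2 * (q * (B : ℝ) ^ (q + 1) * nsq B H u) + (B : ℝ) ^ q * (1 / (2 * lam)) := by
  have h1 := sum_lin_sq (B := B) (fun k => G B H k u) (sum_k_G H u hB) q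
  have h2 : (∑ a ∈ range (B ^ q), ((∑ k ∈ range B, G B H k u * G B q k a : ℤ) : ℝ) ^ 2) =
      q * (B : ℝ) ^ (q + 1) * nsq B H u := by
    have := congrArg (fun z : ℤ => (z : ℝ)) h1
    unfold nsq
    push_cast at this ⊢
    exact this
  calc (∑ a ∈ range (B ^ q), |((∑ k ∈ range B, G B H k u * G B q k a : ℤ) : ℝ)|) ≤
      ∑ a ∈ range (B ^ q), (lam / 2 * ((∑ k ∈ range B, G B H k u * G B q k a : ℤ) : ℝ) ^ 2 + 1 / (2 * lam)) :=
        Finset.sum_le_sum fun a _ => abs_le_lam _ lam hl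
    _ = _ := by
        rw [Finset.sum_add_distrib, ← Finset.mul_sum, h2]
        simp

theorem log_ten_pow {E : ℕ} : (E : ℝ) ≤ Real.log ((10 ^ E : ℕ) : ℝ) := by
  push_cast
  rw [Real.log_pow]
  have h : (1 : ℝ) ≤ Real.log 10 := by
    rw [Real.le_log_iff_exp_le (by norm_num)]
    have := Real.exp_one_lt_d9
    linarith
  have h0 : (0 : ℝ) ≤ E := Nat.cast_nonneg _
  nlinarith

theorem bt_factor {C : ℝ} (hC : 0 ≤ C) {E : ℕ} (hE : 1 ≤ E) (A l : ℝ) (hl : 0 < l) (hA : l ≤ A * E) (hA0 : 0 < A) :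
    C * (10 ^ E : ℕ) / Real.log (10 ^ E : ℕ) ≤ A * C * (10 ^ E : ℕ) / l := by
  have h1 := log_ten_pow (E := E)
  have hE' : (1 : ℝ) ≤ E := by exact_mod_cast hE
  rw [div_le_div_iff₀ (by linarith) hl]
  have h2 : l ≤ A * Real.log ((10 ^ E : ℕ) : ℝ) := hA.trans (mul_le_mul_of_nonneg_left h1 hA0.le)
  calc C * (10 ^ E : ℕ) * l ≤ C * (10 ^ E : ℕ) * (A * Real.log ((10 ^ E : ℕ) : ℝ)) :=
        mul_le_mul_of_nonneg_left h2 (by positivity)
    _ = _ := by ring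

end Pool.Agent.H426R3.CP
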