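import Mathlib
import Pool.Agent.H426R3.SN.Occ

set_option autoImplicit false

/-! The digit sequence of the concatenated primes. -/

namespace Pool.Agent.H426R3.CP

open Finset Pool.Agent.H426R3.SN

noncomputable def pn (n : ℕ) : ℕ := Nat.nth Nat.Prime n

noncomputable def len (n : ℕ) : ℕ := (Nat.digits 10 (pn n)).length

noncomputable def OO (n : ℕ) : ℕ := ∑ i ∈ range n, len i

/-- the hypothesis on the digit sequence -/
def HD (d : ℕ → ℕ) : Prop := ∀ n : ℕ,
  (List.range ((List.range n).map
    (fun i => (Nat.digits 10 (Nat.nth Nat.Prime i)).length)).sum).map d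
      = (List.range n).flatMap (fun i => (Nat.digits 10 (Nat.nth Nat.Prime i)).reverse)

theorem OO_succ (n : ℕ) : OO (n + 1) = OO n + len n := Finset.sum_range_succ _ _

theorem sum_list (f : ℕ → ℕ) (n : ℕ) : ((List.range n).map f).sum = ∑ i ∈ range n, f i := by
  induction n with
  | zero => simp
  | succ n ih => rw [List.range_succ, List.map_append, List.sum_append, ih, Finset.sum_range_succ]; simp

theorem pn_prime (n : ℕ) : (pn n).Prime := Nat.prime_nth_prime n

theorem len_pos (n : ℕ) : 1 ≤ len n := by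
  unfold len
  rw [Nat.length_digits 10 _ (by norm_num) (pn_prime n).ne_zero]
  omega

theorem pn_lt (n : ℕ) : pn n < 10 ^ len n := Nat.lt_base_pow_length_digits (by norm_num)

theorem le_OO (n : ℕ) : n ≤ OO n := by
  induction n with
  | zero => simp
  | succ n ih => rw [OO_succ]; have := len_pos n; omega

variable {d : ℕ → ℕ}

theorem HD' (h : HD d) (n : ℕ) : (List.range (OO n)).map d =
    (List.range n).flatMap (fun i => (Nat.digits 10 (pn i)).reverse) := by
  have := h n
  rw [sum_list] at this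
  exact this

theorem d_lt (h : HD d) (x : ℕ) : d x < 10 := by
  have h1 : d x ∈ (List.range (OO (x + 1))).map d := by
    rw [List.mem_map]
    refine ⟨x, List.mem_range.mpr ?_, rfl⟩
    have := le_OO (x + 1)
    omega
  rw [HD' h, List.mem_flatMap] at h1
  obtain ⟨i, _, hi⟩ := h1
  rw [List.mem_reverse] at hi
  exact Nat.digits_lt_base (by norm_num) hi

theorem d_get (h : HD d) {n r : ℕ} (hr : r < len n) : d (OO n + r) = pn n / 10 ^ (len n - 1 - r) % 10 := by
  have h1 := HD' h (n + 1)
  rw [List.range_succ, List.flatMap_append, ← HD' h n] at h1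
  have hlt : OO n + r < OO (n + 1) := by rw [OO_succ]; omega
  have h2 : ((List.range (OO (n + 1))).map d).getD (OO n + r) 0 = d (OO n + r) := by
    rw [List.getD_eq_getElem _ _ (by simpa using hlt)]
    simp
  rw [h1, List.getD_append_right _ _ _ _ (by simp)] at h2
  rw [← h2]
  simp only [List.length_map, List.length_range, Nat.add_sub_cancel_left, List.flatMap_cons,
    List.flatMap_nil, List.append_nil]
  rw [List.getD_reverse _ hr, Nat.getD_digits _ _ (by norm_num)]
  rfl

def VV (d : ℕ → ℕ) : ℕ → ℕ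
  | 0 => 0
  | x + 1 => 10 * VV d x + d x

theorem VV_elem (h : HD d) (n r : ℕ) (hr : r ≤ len n) :
    VV d (OO n + r) = 10 ^ r * VV d (OO n) + pn n / 10 ^ (len n - r) := by
  induction r with
  | zero => simp [Nat.div_eq_of_lt (pn_lt n)]
  | succ r ih =>
    rw [← add_assoc, VV, ih (by omega), d_get h (by omega)]
    have e : pn n / 10 ^ (len n - r) = pn n / 10 ^ (len n - (r + 1)) / 10 := by
      rw [Nat.div_div_eq_div_mul, ← pow_succ]
      congr 2
      omega
    have e2 : len n - 1 - r = len n - (r + 1) := by omega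
    rw [e, e2]
    have := Nat.div_add_mod (pn n / 10 ^ (len n - (r + 1))) 10
    rw [pow_succ]
    nlinarith

theorem VV_add (a m : ℕ) : VV d (a + m) = 10 ^ m * VV d a + ∑ i ∈ range m, d (a + i) * 10 ^ (m - 1 - i) := by
  induction m with
  | zero => simp
  | succ m ih =>
    rw [← add_assoc, VV, ih, Finset.sum_range_succ, mul_add, Finset.mul_sum]
    have h1 : ∀ i ∈ range m, 10 * (d (a + i) * 10 ^ (m - 1 - i)) = d (a + i) * 10 ^ (m + 1 - 1 - i) := by
      intro i hi
      have hi' := Finset.mem_range.mp hi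
      have : m + 1 - 1 - i = (m - 1 - i) + 1 := by omega
      rw [this, pow_succ]; ring
    rw [Finset.sum_congr rfl h1, show m + 1 - 1 - m = 0 by omega, pow_succ]
    ring

theorem blk_lt (h : HD d) (a m : ℕ) : ∑ i ∈ range m, d (a + i) * 10 ^ (m - 1 - i) < 10 ^ m := by
  induction m with
  | zero => simp
  | succ m ih =>
    rw [Finset.sum_range_succ]
    have h1 : ∀ i ∈ range m, d (a + i) * 10 ^ (m + 1 - 1 - i) = 10 * (d (a + i) * 10 ^ (m - 1 - i)) := by
      intro i hi
      have hi' := Finset.mem_range.mp hi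
      have : m + 1 - 1 - i = (m - 1 - i) + 1 := by omega
      rw [this, pow_succ]; ring
    rw [Finset.sum_congr rfl h1, ← Finset.mul_sum, show m + 1 - 1 - m = 0 by omega, pow_succ]
    have := d_lt h (a + m)
    omega

/-- the block count of the statement -/
def cnt (d : ℕ → ℕ) (m k n : ℕ) : ℕ :=
  ((range n).filter (fun j => ∑ i ∈ range m, d (j * m + i) * 10 ^ (m - 1 - i) = k)).card

theorem cnt_succ (h : HD d) (m k n : ℕ) :
    cnt d m k (n + 1) = cnt d m k n + if VV d (m * (n + 1)) % 10 ^ m = k then 1 else 0 := by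
  have e : VV d (m * (n + 1)) % 10 ^ m = ∑ i ∈ range m, d (n * m + i) * 10 ^ (m - 1 - i) := by
    rw [Nat.mul_succ, VV_add, Nat.mul_add_mod, Nat.mod_eq_of_lt (blk_lt h _ _), mul_comm]
  rw [e]
  unfold cnt
  rw [Finset.range_add_one, Finset.filter_insert]
  split_ifs with h
  · rw [Finset.card_insert_of_notMem (by simp)]
  · rfl

def Del (d : ℕ → ℕ) (m k n : ℕ) : ℤ := (10 : ℤ) ^ m * cnt d m k n - n

theorem Del_step (hd : HD d) {m h n t0 : ℕ} (k : ℕ) (hh : 1 ≤ h) (hl : len n = m * h) (ht : t0 < m)
    (hO : m ∣ OO n + t0) :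
    Del d m k ((OO n + t0) / m + h) - Del d m k ((OO n + t0) / m) =
      G (10 ^ m) (h - 1) k (pn n / 10 ^ (m - t0)) +
        ((if VV d (m * ((OO n + t0) / m + h)) % 10 ^ m = k then (10 : ℤ) ^ m else 0) - 1) := by
  obtain ⟨j, hj⟩ := hO
  have hm : 0 < m := by omega
  rw [hj, Nat.mul_div_cancel_left _ hm]
  obtain ⟨h', rfl⟩ := Nat.exists_eq_add_of_le' hh
  have key : ∀ i ≤ h', cnt d m k (j + i) = cnt d m k j +
      ∑ a ∈ range i, if pn n / 10 ^ (m - t0) / (10 ^ m) ^ (h' - 1 - a) % 10 ^ m = k then 1 else 0 := by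
    intro i
    induction i with
    | zero => simp
    | succ i ih =>
      intro hi
      rw [← add_assoc, cnt_succ hd, ih (by omega), Finset.sum_range_succ, add_assoc]
      congr 2
      have e1 : m * (j + i + 1) = OO n + (t0 + m * (i + 1)) := by
        have : m * (j + i + 1) = m * j + m * (i + 1) := by ring
        rw [this, ← hj]; ring
      have e2 : t0 + m * (i + 1) ≤ len n := by
        rw [hl]
        have : m * (i + 1) + m ≤ m * (h' + 1) := by
          rw [← Nat.mul_succ]; exact Nat.mul_le_mul_left _ (by omega)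
        omega
      have e3 : len n - (t0 + m * (i + 1)) = (m - t0) + m * (h' - 1 - i) := by
        rw [hl]
        have h1 : m * (h' + 1) = m * (h' - 1 - i) + m * (i + 1) + m := by
          rw [← Nat.mul_add, ← Nat.mul_succ]; congr 1; omega
        omega
      rw [e1, VV_elem hd n _ e2, e3]
      have e4 : 10 ^ (t0 + m * (i + 1)) = 10 ^ m * 10 ^ (t0 + m * i) := by
        rw [← pow_add]; congr 1; ring
      rw [e4, mul_assoc, Nat.mul_add_mod, pow_add, ← Nat.div_div_eq_div_mul, pow_mul]
  have h1 := key h' le_rfl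
  have h2 : cnt d m k (j + (h' + 1)) = cnt d m k (j + h') +
      if VV d (m * (j + (h' + 1))) % 10 ^ m = k then 1 else 0 := by
    rw [← add_assoc, cnt_succ hd, add_assoc]
  have h3 : ∑ a ∈ range h', (if pn n / 10 ^ (m - t0) / (10 ^ m) ^ (h' - 1 - a) % 10 ^ m = k then 1 else 0) =
      occ (10 ^ m) h' k (pn n / 10 ^ (m - t0)) := by
    rw [occ_eq_sum, ← Finset.sum_range_reflect (fun a =>
      if pn n / 10 ^ (m - t0) / (10 ^ m) ^ a % 10 ^ m = k then 1 else 0)]
  rw [h3] at h1
  unfold Del G
  rw [h2, h1, Nat.add_sub_cancel]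
  push_cast
  split_ifs <;> push_cast <;> ring

end Pool.Agent.H426R3.CP
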