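import Mathlib
import Pool.Agent.H426R3.CP.Dig
import Pool.Agent.H426R3.CP.BT

set_option autoImplicit false

/-! Enumeration of the primes with `l` digits and summation by parts. -/

namespace Pool.Agent.H426R3.CP

open Finset Pool.Agent.H426R3.SN

/-- index of the first prime with `l` digits -/
noncomputable def na (l : ℕ) : ℕ := Nat.count Nat.Prime (10 ^ (l - 1))

/-- number of primes with `l` digits -/
noncomputable def NN (l : ℕ) : ℕ := Nat.count Nat.Prime (10 ^ l) - na l

theorem na_le (l : ℕ) : na l ≤ Nat.count Nat.Prime (10 ^ l) :=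
  Nat.count_monotone _ (Nat.pow_le_pow_right (by norm_num) (by omega))

theorem pn_mem {l i : ℕ} (hi : i < NN l) : pn (na l + i) ∈ PL l := by
  unfold PL
  rw [mem_filter, mem_range]
  refine ⟨?_, pn_prime _, ?_⟩
  · apply Nat.nth_lt_of_lt_count
    unfold NN at hi
    omega
  · unfold pn
    rw [← Nat.count_le_iff_le_nth Nat.infinite_setOfPred_prime]
    exact (show Nat.count Nat.Prime (10 ^ (l - 1)) ≤ Nat.count Nat.Prime (10 ^ (l - 1)) + i from
      Nat.le_add_right _ _)

theorem pn_mono : StrictMono pn := Nat.nth_strictMono Nat.infinite_setOfPred_prime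

theorem len_eq {l i : ℕ} (hl : 1 ≤ l) (hi : i < NN l) : len (na l + i) = l := by
  have h := pn_mem hi
  unfold PL at h
  rw [mem_filter, mem_range] at h
  obtain ⟨h1, h2, h3⟩ := h
  unfold len
  rw [Nat.length_digits 10 _ (by norm_num) h2.ne_zero, Nat.log_eq_of_pow_le_of_lt_pow (m := l - 1) h3
    (by rwa [Nat.sub_add_cancel hl])]
  omega

theorem sum_PL (l : ℕ) (f : ℕ → ℝ) : ∑ p ∈ PL l, f p = ∑ i ∈ range (NN l), f (pn (na l + i)) := by
  symm
  refine Finset.sum_bij (fun i _ => pn (na l + i)) ?_ ?_ ?_ ?_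
  · intro i hi; exact pn_mem (mem_range.mp hi)
  · intro i _ j _ hij
    have := pn_mono.injective hij
    omega
  · intro p hp
    unfold PL at hp
    rw [mem_filter, mem_range] at hp
    obtain ⟨h1, h2, h3⟩ := hp
    have h4 : na l ≤ Nat.count Nat.Prime p := Nat.count_monotone _ h3
    have h5 : Nat.count Nat.Prime p < Nat.count Nat.Prime (10 ^ l) := Nat.count_strict_mono h2 h1
    refine ⟨Nat.count Nat.Prime p - na l, ?_, ?_⟩
    · rw [mem_range]; unfold NN; omega
    · unfold pn
      rw [Nat.add_sub_cancel' h4, Nat.nth_count h2]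
  · intro i _; rfl

theorem OO_add {l : ℕ} (hl : 1 ≤ l) {i : ℕ} (hi : i ≤ NN l) : OO (na l + i) = OO (na l) + l * i := by
  induction i with
  | zero => simp
  | succ i ih =>
    rw [← add_assoc, OO_succ, ih (by omega), len_eq hl (by omega)]
    ring

theorem OO_le {l n : ℕ} (hl : 1 ≤ l) (hn : n ≤ Nat.count Nat.Prime (10 ^ l)) : OO n ≤ l * n := by
  induction n with
  | zero => simp [OO]
  | succ n ih =>
    rw [OO_succ]
    have h1 := ih (by omega)
    have h2 : len n ≤ l := by
      have h3 : pn n < 10 ^ l := Nat.nth_lt_of_lt_count (by omega)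
      unfold len
      rw [Nat.length_digits 10 _ (by norm_num) (pn_prime n).ne_zero]
      have := Nat.log_lt_of_lt_pow (pn_prime n).ne_zero h3
      omega
    nlinarith

theorem OO_top {l : ℕ} (hl : 1 ≤ l) : OO (na l) + l * NN l ≤ l * 10 ^ l := by
  rw [← OO_add hl le_rfl]
  have h1 : na l + NN l = Nat.count Nat.Prime (10 ^ l) := by
    unfold NN; have := na_le l; omega
  rw [h1]
  refine (OO_le hl le_rfl).trans (Nat.mul_le_mul_left _ ?_)
  exact Nat.count_le _

/-- summation by parts -/
theorem abel_id (g : ℕ → ℝ) (u : ℕ → ℕ) (D : ℕ → ℝ) (N : ℕ) :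
    ∑ i ∈ range N, g (u i) * (D (i + 1) - D i) =
      g (u N) * D N - g (u 0) * D 0 - ∑ i ∈ range N, (g (u (i + 1)) - g (u i)) * D (i + 1) := by
  induction N with
  | zero => simp
  | succ N ih => rw [Finset.sum_range_succ, ih, Finset.sum_range_succ]; ring

theorem abel {K M : ℝ} (hM : 0 ≤ M) (hK : 0 ≤ K) (g : ℕ → ℝ) (hg : ∀ v, |g v| ≤ K) (u : ℕ → ℕ) (hu : Monotone u)
    (D : ℕ → ℝ) (N U : ℕ) (hU : u N ≤ U) (hD : ∀ i ≤ N, |D i| ≤ M) :
    |∑ i ∈ range N, g (u i) * (D (i + 1) - D i)| ≤ 2 * K * M * (U + 1) := by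
  rw [abel_id]
  have h1 : ∀ n ≤ N, |∑ i ∈ range n, (g (u (i + 1)) - g (u i)) * D (i + 1)| ≤ 2 * K * M * (u n - u 0) := by
    intro n
    induction n with
    | zero => simp
    | succ n ih =>
      intro hn
      rw [Finset.sum_range_succ]
      have h2 := ih (by omega)
      have h3 : |(g (u (n + 1)) - g (u n)) * D (n + 1)| ≤ 2 * K * M * (u (n + 1) - u n) := by
        have hmono := hu (Nat.le_succ n)
        rw [abs_mul]
        rcases eq_or_lt_of_le hmono with h | h
        · have h' : u (n + 1) = u n := h.symm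
          rw [h']; simp
        · have h4 : (1 : ℝ) ≤ (u (n + 1) : ℝ) - u n := by
            have : (u n : ℝ) + 1 ≤ u (n + 1) := by exact_mod_cast h
            linarith
          have h5 : |g (u (n + 1)) - g (u n)| ≤ 2 * K := by
            have h6 := abs_sub (g (u (n + 1))) (g (u n))
            have h7 := hg (u (n + 1))
            have h8 := hg (u n)
            linarith
          calc |g (u (n + 1)) - g (u n)| * |D (n + 1)| ≤ 2 * K * M :=
                mul_le_mul h5 (hD _ hn) (abs_nonneg _) (by positivity)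
            _ = 2 * K * M * 1 := by ring
            _ ≤ _ := mul_le_mul_of_nonneg_left h4 (by positivity)
      calc _ ≤ _ := abs_add_le _ _
        _ ≤ 2 * K * M * (u n - u 0) + 2 * K * M * (u (n + 1) - u n) := add_le_add h2 h3
        _ = _ := by ring
  have h2 := h1 N le_rfl
  have h3 : |g (u N) * D N| ≤ K * M := by
    rw [abs_mul]; exact mul_le_mul (hg _) (hD _ le_rfl) (abs_nonneg _) hK
  have h4 : |g (u 0) * D 0| ≤ K * M := by
    rw [abs_mul]; exact mul_le_mul (hg _) (hD _ (Nat.zero_le _)) (abs_nonneg _) hK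
  have hU' : (u N : ℝ) ≤ U := by exact_mod_cast hU
  have h0 : (0 : ℝ) ≤ u 0 := Nat.cast_nonneg _
  have h5 : 2 * K * M * ((u N : ℝ) - u 0) ≤ 2 * K * M * U :=
    mul_le_mul_of_nonneg_left (by linarith) (by positivity)
  calc _ ≤ |g (u N) * D N - g (u 0) * D 0| + |∑ i ∈ range N, (g (u (i + 1)) - g (u i)) * D (i + 1)| := abs_sub _ _
    _ ≤ (|g (u N) * D N| + |g (u 0) * D 0|) + |∑ i ∈ range N, (g (u (i + 1)) - g (u i)) * D (i + 1)| :=
        add_le_add (abs_sub _ _) le_rfl
    _ ≤ (K * M + K * M) + 2 * K * M * U := add_le_add (add_le_add h3 h4) (h2.trans h5)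
    _ = _ := by ring

end Pool.Agent.H426R3.CP
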