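import Mathlib
import Pool.Agent.H426R3.CP.Avg

set_option autoImplicit false

/-! The averages with the parameters inserted. -/

namespace Pool.Agent.H426R3.CP

open Finset Pool.Agent.H426R3.SN

/-- parameters -/
structure Par (m H τ : ℕ) : Prop where
  hm : 1 ≤ m
  hH : 1 ≤ H
  hτ1 : 1 ≤ τ
  hτ2 : τ ≤ m

def EL (m H : ℕ) : ℕ := 4 * m * (H + 1)
def E1 (m H τ : ℕ) : ℕ := τ + m * (H + 1)
def E2 (m H τ : ℕ) : ℕ := τ + 3 * m * (H + 1)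

variable {m H τ : ℕ}

theorem ELE2 (h : Par m H τ) : EL m H - E2 m H τ = m * H + (m - τ) := by
  have := h.hτ2
  unfold EL E2
  have e : 4 * m * (H + 1) = 3 * m * (H + 1) + m * H + m := by ring
  omega

theorem E2_le (h : Par m H τ) : E2 m H τ ≤ EL m H := by
  have := h.hτ2
  unfold EL E2
  have e : 4 * m * (H + 1) = 3 * m * (H + 1) + m * H + m := by ring
  omega

theorem E2_eq : E2 m H τ = E1 m H τ + m * (2 * (H + 1)) := by unfold E1 E2; ring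

theorem UU_eq (h : Par m H τ) : 10 ^ (EL m H - E2 m H τ) = (10 ^ m) ^ H * 10 ^ (m - τ) := by
  rw [ELE2 h, pow_add, pow_mul]

theorem VV_eq (h : Par m H τ) : 10 ^ (EL m H - E1 m H τ) =
    (10 ^ m) ^ (2 * (H + 1)) * 10 ^ (EL m H - E2 m H τ) := by
  rw [← pow_mul, ← pow_add]
  congr 1
  have := E2_le h
  have := E2_eq (m := m) (H := H) (τ := τ)
  omega

theorem E1_pos (h : Par m H τ) : 1 ≤ E1 m H τ := by unfold E1; have := h.hτ1; omega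
theorem E2_pos (h : Par m H τ) : 1 ≤ E2 m H τ := by unfold E2; have := h.hτ1; omega
theorem E1_lt_E2 (h : Par m H τ) : E1 m H τ < E2 m H τ := by
  rw [E2_eq]
  have h1 := h.hm
  have : 0 < m * (2 * (H + 1)) := by positivity
  omega

theorem EL_pos (h : Par m H τ) : 0 < EL m H := by
  unfold EL; have := h.hm; positivity

/-- the normaliser -/
noncomputable def WW (m H : ℕ) : ℝ := (10 : ℝ) ^ (EL m H) / EL m H

theorem WW_pos (h : Par m H τ) : 0 < WW m H := by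
  unfold WW
  have : (0 : ℝ) < EL m H := by exact_mod_cast EL_pos h
  positivity

theorem B_pos : 0 < 10 ^ m := by positivity

/-- generic estimate for functions of the leading digits -/
theorem top_est {C : ℝ} (hC1 : 1 ≤ C) (hC : BTC C) (h : Par m H τ) (Φ : ℕ → ℝ) (hΦ : ∀ v, 0 ≤ Φ v) (A : ℝ)
    (hA : ∑ u ∈ range (10 ^ (EL m H - E2 m H τ)), Φ u ≤ ((10 ^ (EL m H - E2 m H τ) : ℕ) : ℝ) * A) :
    ∑ p ∈ PL (EL m H), Φ (p / 10 ^ E2 m H τ) ≤ 2 * C * A * WW m H := by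
  have hE : (0 : ℝ) < EL m H := by exact_mod_cast EL_pos h
  have h1 := sum_top hC (E2_pos h) (E2_le h) Φ hΦ
  have h2 : C * (10 ^ E2 m H τ : ℕ) / Real.log (10 ^ E2 m H τ : ℕ) ≤ 2 * C * (10 ^ E2 m H τ : ℕ) / EL m H := by
    refine bt_factor (by linarith) (E2_pos h) 2 _ hE ?_ (by norm_num)
    have : EL m H ≤ 2 * E2 m H τ := by
      unfold EL E2
      have : m * (H + 1) ≥ 0 := Nat.zero_le _
      nlinarith [h.hτ1]
    exact_mod_cast this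
  have hS0 : 0 ≤ ∑ u ∈ range (10 ^ (EL m H - E2 m H τ)), Φ u := Finset.sum_nonneg fun u _ => hΦ u
  have hprod : ((10 ^ E2 m H τ : ℕ) : ℝ) * ((10 ^ (EL m H - E2 m H τ) : ℕ) : ℝ) = (10 : ℝ) ^ EL m H := by
    rw [← Nat.cast_mul, ← pow_add, Nat.add_sub_cancel' (E2_le h)]
    push_cast; rfl
  calc ∑ p ∈ PL (EL m H), Φ (p / 10 ^ E2 m H τ) ≤ _ := h1
    _ ≤ 2 * C * (10 ^ E2 m H τ : ℕ) / EL m H * ∑ u ∈ range (10 ^ (EL m H - E2 m H τ)), Φ u :=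
        mul_le_mul_of_nonneg_right h2 hS0
    _ ≤ 2 * C * (10 ^ E2 m H τ : ℕ) / EL m H * (((10 ^ (EL m H - E2 m H τ) : ℕ) : ℝ) * A) :=
        mul_le_mul_of_nonneg_left hA (by positivity)
    _ = 2 * C * A * ((((10 ^ E2 m H τ : ℕ) : ℝ) * ((10 ^ (EL m H - E2 m H τ) : ℕ) : ℝ)) / EL m H) := by ring
    _ = _ := by rw [hprod]; rfl

theorem P1 {C : ℝ} (hC1 : 1 ≤ C) (hC : BTC C) (h : Par m H τ) :
    ∑ p ∈ PL (EL m H), (if 4 * nsq (10 ^ m) H (p / 10 ^ E2 m H τ) < H * ((10 ^ m : ℕ) : ℤ) ^ 2 then (1 : ℝ) else 0) ≤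
      16 * C / (10 ^ m : ℕ) * WW m H := by
  have hB4 : 4 ≤ 10 ^ m := by
    calc 4 ≤ 10 ^ 1 := by norm_num
      _ ≤ 10 ^ m := Nat.pow_le_pow_right (by norm_num) h.hm
  have hB0 : (0 : ℝ) < ((10 ^ m : ℕ) : ℝ) := by positivity
  have h1 := top_est hC1 hC h
    (fun u => if 4 * nsq (10 ^ m) H u < H * ((10 ^ m : ℕ) : ℤ) ^ 2 then (1 : ℝ) else 0)
    (fun v => by positivity) (8 / (10 ^ m : ℕ)) (by
      have h2 := bad_card_T hB4 h.hH (10 ^ (m - τ))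
      rw [← UU_eq h] at h2
      have h3 : (((10 ^ m : ℕ) : ℝ)) * (∑ w ∈ range (10 ^ (EL m H - E2 m H τ)),
          (if 4 * nsq (10 ^ m) H w < H * ((10 ^ m : ℕ) : ℤ) ^ 2 then (1 : ℝ) else 0)) ≤
          8 * ((10 ^ (EL m H - E2 m H τ) : ℕ) : ℝ) := by exact_mod_cast h2
      rw [← mul_div_assoc, le_div_iff₀ hB0, mul_comm]
      linarith)
  refine h1.trans (le_of_eq ?_)
  ring

theorem nsqR_nonneg (B q w : ℕ) : (0 : ℝ) ≤ nsq B q w := by exact_mod_cast nsq_nonneg B q w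

theorem sum_nsq_U (h : Par m H τ) : ∑ u ∈ range (10 ^ (EL m H - E2 m H τ)), (nsq (10 ^ m) H u : ℝ) ≤
    ((10 ^ (EL m H - E2 m H τ) : ℕ) : ℝ) * (H * ((10 ^ m : ℕ) : ℝ) ^ 2) := by
  have := sum_nsq_T_le (B := 10 ^ m) B_pos H (10 ^ (m - τ))
  rwa [← UU_eq h] at this

theorem P2 {C : ℝ} (hC1 : 1 ≤ C) (hC : BTC C) (h : Par m H τ) :
    ∑ p ∈ PL (EL m H), (nsq (10 ^ m) H (p / 10 ^ E2 m H τ) : ℝ) ≤
      2 * C * (H * ((10 ^ m : ℕ) : ℝ) ^ 2) * WW m H :=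
  top_est hC1 hC h (fun u => (nsq (10 ^ m) H u : ℝ)) (fun u => nsqR_nonneg _ _ u) _ (sum_nsq_U h)

theorem P3 {C : ℝ} (hC1 : 1 ≤ C) (hC : BTC C) (h : Par m H τ) :
    ((PL (EL m H)).card : ℝ) ≤ 2 * C * WW m H := by
  have := top_est hC1 hC h (fun _ => (1 : ℝ)) (fun _ => by norm_num) 1 (by simp)
  simpa using this

theorem lam_calc {H : ℕ} (hH : 1 ≤ H) {B δ : ℝ} (hB : 0 < B) (hδ : 0 < δ) (hBδ : 4 / δ ^ 2 ≤ B) :
    2 * (1 / (H * B ^ 2 * δ)) * H ^ 2 * B ^ 3 + 1 / (2 * (1 / (H * B ^ 2 * δ))) ≤ H * B ^ 2 * δ := by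
  have hH' : (1 : ℝ) ≤ H := by exact_mod_cast hH
  have hH0 : (0 : ℝ) < H := by linarith
  have e1 : 2 * (1 / ((H : ℝ) * B ^ 2 * δ)) * H ^ 2 * B ^ 3 = 2 * H * B / δ := by
    field_simp
  have e2 : 1 / (2 * (1 / ((H : ℝ) * B ^ 2 * δ))) = H * B ^ 2 * δ / 2 := by
    field_simp
  rw [e1, e2]
  have h1 : 2 * H * B / δ ≤ H * B ^ 2 * δ / 2 := by
    rw [div_le_iff₀ hδ]
    rw [div_le_iff₀ (by positivity)] at hBδ
    nlinarith [mul_pos hH0 hB]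
  linarith

theorem P4 {C : ℝ} (hC1 : 1 ≤ C) (hC : BTC C) (h : Par m H τ) {δ : ℝ} (hδ : 0 < δ)
    (hBδ : 4 / δ ^ 2 ≤ ((10 ^ m : ℕ) : ℝ)) :
    ∑ p ∈ PL (EL m H), |((∑ k ∈ range (10 ^ m), G (10 ^ m) H k (p / 10 ^ E2 m H τ) *
      G (10 ^ m) (2 * (H + 1)) k (p / 10 ^ E1 m H τ) : ℤ) : ℝ)| ≤
      4 * C * (H * ((10 ^ m : ℕ) : ℝ) ^ 2 * δ) * WW m H := by
  set B := 10 ^ m with hB
  have hBp : 0 < B := B_pos
  have hBr : (0 : ℝ) < B := by exact_mod_cast hBp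
  set q := 2 * (H + 1) with hq
  have hE : (0 : ℝ) < EL m H := by exact_mod_cast EL_pos h
  have hHr : (1 : ℝ) ≤ H := by exact_mod_cast h.hH
  let Φ : ℕ → ℝ := fun v => |((∑ k ∈ range B, G B H k (v / B ^ q) * G B q k v : ℤ) : ℝ)|
  have hpE : 10 ^ E2 m H τ = 10 ^ E1 m H τ * B ^ q := by
    rw [E2_eq, pow_add, pow_mul]
  have hle : E1 m H τ ≤ EL m H := (E1_lt_E2 h).le.trans (E2_le h)
  have h1 := sum_top hC (E1_pos h) hle Φ (fun v => abs_nonneg _)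
  have e1 : ∀ p, Φ (p / 10 ^ E1 m H τ) = |((∑ k ∈ range B, G B H k (p / 10 ^ E2 m H τ) *
      G B q k (p / 10 ^ E1 m H τ) : ℤ) : ℝ)| := by
    intro p
    simp only [Φ]
    rw [Nat.div_div_eq_div_mul, ← hpE]
  rw [Finset.sum_congr rfl fun p _ => e1 p] at h1
  set lam : ℝ := 1 / (H * (B : ℝ) ^ 2 * δ) with hlam
  have hlam0 : 0 < lam := by positivity
  -- the average of Φ
  have h2 : ∑ v ∈ range (10 ^ (EL m H - E1 m H τ)), Φ v ≤
      ((10 ^ (EL m H - E1 m H τ) : ℕ) : ℝ) * (H * (B : ℝ) ^ 2 * δ) := by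
    rw [VV_eq h, ← hB, ← hq, sum_range_mul']
    have h3 : ∀ u ∈ range (10 ^ (EL m H - E2 m H τ)), ∑ a ∈ range (B ^ q), Φ (a + B ^ q * u) ≤
        lam / 2 * (q * (B : ℝ) ^ (q + 1)) * nsq B H u + (B : ℝ) ^ q * (1 / (2 * lam)) := by
      intro u _
      have h4 : ∀ a ∈ range (B ^ q), Φ (a + B ^ q * u) =
          |((∑ k ∈ range B, G B H k u * G B q k a : ℤ) : ℝ)| := by
        intro a ha
        have ha' := Finset.mem_range.mp ha
        simp only [Φ]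
        rw [Nat.add_mul_div_left _ _ (pow_pos hBp q), Nat.div_eq_of_lt ha', zero_add]
        congr 2
        exact Finset.sum_congr rfl fun k _ => by rw [G_per hBp q k a u ha']
      rw [Finset.sum_congr rfl h4]
      refine (cross hBp H q u lam hlam0).trans (le_of_eq ?_)
      ring
    refine (Finset.sum_le_sum h3).trans ?_
    rw [Finset.sum_add_distrib, ← Finset.mul_sum]
    simp only [Finset.sum_const, Finset.card_range, nsmul_eq_mul]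
    have h5 := sum_nsq_U h
    rw [← hB] at h5
    set T : ℝ := ((10 ^ (EL m H - E2 m H τ) : ℕ) : ℝ) with hT
    have hT0 : 0 ≤ T := Nat.cast_nonneg _
    have h6 := lam_calc h.hH hBr hδ hBδ
    rw [← hlam] at h6
    have hqle : (q : ℝ) ≤ 4 * H := by rw [hq]; push_cast; linarith
    have hn0 : 0 ≤ ∑ u ∈ range (10 ^ (EL m H - E2 m H τ)), (nsq B H u : ℝ) :=
      Finset.sum_nonneg fun u _ => nsqR_nonneg _ _ u
    calc lam / 2 * (q * (B : ℝ) ^ (q + 1)) * ∑ u ∈ range (10 ^ (EL m H - E2 m H τ)), (nsq B H u : ℝ) +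
          T * ((B : ℝ) ^ q * (1 / (2 * lam))) ≤
          lam / 2 * (4 * H * (B : ℝ) ^ (q + 1)) * (T * (H * (B : ℝ) ^ 2)) +
          T * ((B : ℝ) ^ q * (1 / (2 * lam))) := by
            gcongr
      _ = (B : ℝ) ^ q * T * (2 * lam * H ^ 2 * B ^ 3 + 1 / (2 * lam)) := by ring
      _ ≤ (B : ℝ) ^ q * T * (H * B ^ 2 * δ) := mul_le_mul_of_nonneg_left h6 (by positivity)
      _ = _ := by rw [hT]; push_cast; ring
  have h3 : C * (10 ^ E1 m H τ : ℕ) / Real.log (10 ^ E1 m H τ : ℕ) ≤ 4 * C * (10 ^ E1 m H τ : ℕ) / EL m H := by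
    refine bt_factor (by linarith) (E1_pos h) 4 _ hE ?_ (by norm_num)
    have : EL m H ≤ 4 * E1 m H τ := by
      unfold EL E1
      nlinarith [h.hτ1]
    exact_mod_cast this
  have hprod : ((10 ^ E1 m H τ : ℕ) : ℝ) * ((10 ^ (EL m H - E1 m H τ) : ℕ) : ℝ) = (10 : ℝ) ^ EL m H := by
    rw [← Nat.cast_mul, ← pow_add, Nat.add_sub_cancel' hle]
    push_cast; rfl
  have hS0 : 0 ≤ ∑ v ∈ range (10 ^ (EL m H - E1 m H τ)), Φ v := Finset.sum_nonneg fun u _ => abs_nonneg _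
  calc _ ≤ _ := h1
    _ ≤ 4 * C * (10 ^ E1 m H τ : ℕ) / EL m H * ∑ v ∈ range (10 ^ (EL m H - E1 m H τ)), Φ v :=
        mul_le_mul_of_nonneg_right h3 hS0
    _ ≤ 4 * C * (10 ^ E1 m H τ : ℕ) / EL m H * (((10 ^ (EL m H - E1 m H τ) : ℕ) : ℝ) * (H * (B : ℝ) ^ 2 * δ)) :=
        mul_le_mul_of_nonneg_left h2 (by positivity)
    _ = 4 * C * (H * (B : ℝ) ^ 2 * δ) *
        ((((10 ^ E1 m H τ : ℕ) : ℝ) * ((10 ^ (EL m H - E1 m H τ) : ℕ) : ℝ)) / EL m H) := by ring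
    _ = _ := by rw [hprod]; rfl

theorem P5 {C : ℝ} (hC1 : 1 ≤ C) (hC : BTC C) (h : Par m H τ) {δ : ℝ} (hδ : 0 < δ)
    (hBδ : 4 / δ ^ 2 ≤ ((10 ^ m : ℕ) : ℝ)) :
    ∑ p ∈ PL (EL m H), |((∑ k ∈ range (10 ^ m), G (10 ^ m) H k (p / 10 ^ E2 m H τ) *
      G (10 ^ m) (H + 1) k (p / 10 ^ τ) : ℤ) : ℝ)| ≤
      5 * C * (H * ((10 ^ m : ℕ) : ℝ) ^ 2 * δ) * WW m H := by
  set B := 10 ^ m with hB
  have hBp : 0 < B := B_pos
  have hBr : (0 : ℝ) < B := by exact_mod_cast hBp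
  set q := H + 1 with hq
  have hE : (0 : ℝ) < EL m H := by exact_mod_cast EL_pos h
  have hHr : (1 : ℝ) ≤ H := by exact_mod_cast h.hH
  let Ψ : ℕ → ℕ → ℝ := fun u r => |((∑ k ∈ range B, G B H k u * G B q k (r / 10 ^ τ) : ℤ) : ℝ)|
  have hpE : 10 ^ E1 m H τ = 10 ^ τ * B ^ q := by
    unfold E1
    rw [pow_add, pow_mul]
  have h1 := sum_ap hC (E1_pos h) (E1_lt_E2 h) (E2_le h) Ψ (fun u r => abs_nonneg _)
  have e1 : ∀ p, Ψ (p / 10 ^ E2 m H τ) (p % 10 ^ E1 m H τ) = |((∑ k ∈ range B, G B H k (p / 10 ^ E2 m H τ) *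
      G B q k (p / 10 ^ τ) : ℤ) : ℝ)| := by
    intro p
    simp only [Ψ]
    congr 2
    refine Finset.sum_congr rfl fun k _ => ?_
    rw [hpE, Nat.mod_mul_right_div_self, G_mod hBp]
  rw [Finset.sum_congr rfl fun p _ => e1 p] at h1
  set lam : ℝ := 1 / (H * (B : ℝ) ^ 2 * δ) with hlam
  have hlam0 : 0 < lam := by positivity
  have h2 : ∑ u ∈ range (10 ^ (EL m H - E2 m H τ)), ∑ r ∈ range (10 ^ E1 m H τ), Ψ u r ≤
      ((10 ^ (EL m H - E2 m H τ) : ℕ) : ℝ) * ((10 ^ E1 m H τ : ℕ) : ℝ) * (H * (B : ℝ) ^ 2 * δ) := by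
    have h3 : ∀ u ∈ range (10 ^ (EL m H - E2 m H τ)), ∑ r ∈ range (10 ^ E1 m H τ), Ψ u r ≤
        (10 : ℝ) ^ τ * (lam / 2 * (q * (B : ℝ) ^ (q + 1)) * nsq B H u + (B : ℝ) ^ q * (1 / (2 * lam))) := by
      intro u _
      rw [hpE, sum_range_mul']
      have h4 : ∀ a ∈ range (B ^ q), ∑ x ∈ range (10 ^ τ), Ψ u (x + 10 ^ τ * a) =
          (10 : ℝ) ^ τ * |((∑ k ∈ range B, G B H k u * G B q k a : ℤ) : ℝ)| := by
        intro a _
        have h5 : ∀ x ∈ range (10 ^ τ), Ψ u (x + 10 ^ τ * a) =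
            |((∑ k ∈ range B, G B H k u * G B q k a : ℤ) : ℝ)| := by
          intro x hx
          simp only [Ψ]
          rw [Nat.add_mul_div_left _ _ (by positivity), Nat.div_eq_of_lt (Finset.mem_range.mp hx), zero_add]
        rw [Finset.sum_congr rfl h5]
        simp
      rw [Finset.sum_congr rfl h4, ← Finset.mul_sum]
      refine mul_le_mul_of_nonneg_left ((cross hBp H q u lam hlam0).trans (le_of_eq ?_)) (by positivity)
      ring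
    refine (Finset.sum_le_sum h3).trans ?_
    rw [← Finset.mul_sum, Finset.sum_add_distrib, ← Finset.mul_sum]
    simp only [Finset.sum_const, Finset.card_range, nsmul_eq_mul]
    have h5 := sum_nsq_U h
    rw [← hB] at h5
    set T : ℝ := ((10 ^ (EL m H - E2 m H τ) : ℕ) : ℝ) with hT
    have hT0 : 0 ≤ T := Nat.cast_nonneg _
    have h6 := lam_calc h.hH hBr hδ hBδ
    rw [← hlam] at h6
    have hqle : (q : ℝ) ≤ 4 * H := by rw [hq]; push_cast; linarith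
    have hn0 : 0 ≤ ∑ u ∈ range (10 ^ (EL m H - E2 m H τ)), (nsq B H u : ℝ) :=
      Finset.sum_nonneg fun u _ => nsqR_nonneg _ _ u
    calc (10 : ℝ) ^ τ * (lam / 2 * (q * (B : ℝ) ^ (q + 1)) * ∑ u ∈ range (10 ^ (EL m H - E2 m H τ)), (nsq B H u : ℝ) +
          T * ((B : ℝ) ^ q * (1 / (2 * lam)))) ≤
          (10 : ℝ) ^ τ * (lam / 2 * (4 * H * (B : ℝ) ^ (q + 1)) * (T * (H * (B : ℝ) ^ 2)) +
          T * ((B : ℝ) ^ q * (1 / (2 * lam)))) := by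
            gcongr
      _ = (10 : ℝ) ^ τ * (B : ℝ) ^ q * T * (2 * lam * H ^ 2 * B ^ 3 + 1 / (2 * lam)) := by ring
      _ ≤ (10 : ℝ) ^ τ * (B : ℝ) ^ q * T * (H * B ^ 2 * δ) := mul_le_mul_of_nonneg_left h6 (by positivity)
      _ = _ := by rw [hpE]; push_cast; ring
  have hlt := E1_lt_E2 h
  have h3 : C * (5 / 2) * (10 ^ (E2 m H τ - E1 m H τ) : ℕ) / Real.log (10 ^ (E2 m H τ - E1 m H τ) : ℕ) ≤
      2 * (C * (5 / 2)) * (10 ^ (E2 m H τ - E1 m H τ) : ℕ) / EL m H := by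
    refine bt_factor (by linarith) (by omega) 2 _ hE ?_ (by norm_num)
    have : EL m H ≤ 2 * (E2 m H τ - E1 m H τ) := by
      rw [E2_eq, Nat.add_sub_cancel_left]
      unfold EL
      apply le_of_eq; ring
    exact_mod_cast this
  have hprod : ((10 ^ (E2 m H τ - E1 m H τ) : ℕ) : ℝ) * (((10 ^ (EL m H - E2 m H τ) : ℕ) : ℝ) *
      ((10 ^ E1 m H τ : ℕ) : ℝ)) = (10 : ℝ) ^ EL m H := by
    rw [← Nat.cast_mul, ← Nat.cast_mul, ← pow_add, ← pow_add]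
    have := E2_le h
    have e : E2 m H τ - E1 m H τ + (EL m H - E2 m H τ + E1 m H τ) = EL m H := by omega
    rw [e]
    push_cast; rfl
  have hS0 : 0 ≤ ∑ u ∈ range (10 ^ (EL m H - E2 m H τ)), ∑ r ∈ range (10 ^ E1 m H τ), Ψ u r :=
    Finset.sum_nonneg fun u _ => Finset.sum_nonneg fun r _ => abs_nonneg _
  calc _ ≤ _ := h1
    _ ≤ 2 * (C * (5 / 2)) * (10 ^ (E2 m H τ - E1 m H τ) : ℕ) / EL m H *
          ∑ u ∈ range (10 ^ (EL m H - E2 m H τ)), ∑ r ∈ range (10 ^ E1 m H τ), Ψ u r :=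
        mul_le_mul_of_nonneg_right h3 hS0
    _ ≤ 2 * (C * (5 / 2)) * (10 ^ (E2 m H τ - E1 m H τ) : ℕ) / EL m H *
          (((10 ^ (EL m H - E2 m H τ) : ℕ) : ℝ) * ((10 ^ E1 m H τ : ℕ) : ℝ) * (H * (B : ℝ) ^ 2 * δ)) :=
        mul_le_mul_of_nonneg_left h2 (by positivity)
    _ = 5 * C * (H * (B : ℝ) ^ 2 * δ) * ((((10 ^ (E2 m H τ - E1 m H τ) : ℕ) : ℝ) *
        (((10 ^ (EL m H - E2 m H τ) : ℕ) : ℝ) * ((10 ^ E1 m H τ : ℕ) : ℝ))) / EL m H) := by ring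
    _ = _ := by rw [hprod]; rfl

end Pool.Agent.H426R3.CP
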