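import Mathlib
import Pool.Agent.H426R3.CP.Enum
import Pool.Agent.H426R3.CP.Par

set_option autoImplicit false

/-! The main inequality. -/

namespace Pool.Agent.H426R3.CP

open Finset Pool.Agent.H426R3.SN

variable {m H τ : ℕ}

theorem EL_eq : EL m H = m * (4 * (H + 1)) := by unfold EL; ring

theorem exists_t0 (hm : 1 ≤ m) (x : ℕ) : ∃ t0 < m, m ∣ x + t0 := by
  refine ⟨(m - x % m) % m, Nat.mod_lt _ (by omega), ?_⟩
  rw [Nat.dvd_iff_mod_eq_zero, Nat.add_mod, Nat.mod_mod, ← Nat.add_mod]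
  have h1 : x % m < m := Nat.mod_lt _ (by omega)
  have h2 := Nat.div_add_mod x m
  have h3 : x + (m - x % m) = m * (x / m + 1) := by
    rw [Nat.mul_succ]; omega
  rw [h3]
  exact Nat.mul_mod_right _ _

/-- pieces of the block sum of one prime -/
theorem G_three (h : Par m H τ) (k p : ℕ) :
    G (10 ^ m) (4 * (H + 1) - 1) k (p / 10 ^ τ) =
      G (10 ^ m) (H + 1) k (p / 10 ^ τ) + G (10 ^ m) (2 * (H + 1)) k (p / 10 ^ E1 m H τ) +
        G (10 ^ m) H k (p / 10 ^ E2 m H τ) := by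
  have e : 4 * (H + 1) - 1 = (H + 1) + (2 * (H + 1) + H) := by omega
  rw [e, G_split B_pos (H + 1) (2 * (H + 1) + H), G_split B_pos (2 * (H + 1)) H, Nat.div_div_eq_div_mul, Nat.div_div_eq_div_mul, ← add_assoc]
  have e1 : 10 ^ τ * (10 ^ m) ^ (H + 1) = 10 ^ E1 m H τ := by
    rw [← pow_mul, ← pow_add]; rfl
  have e2 : 10 ^ τ * (10 ^ m) ^ (H + 1) * (10 ^ m) ^ (2 * (H + 1)) = 10 ^ E2 m H τ := by
    rw [e1, E2_eq, ← pow_mul, ← pow_add]
  rw [e2, e1]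

/-- lower bound for one prime -/
theorem one_prime (h : Par m H τ) (p v : ℕ) (hv : v < 10 ^ m) (lam : ℝ) (hl : 0 < lam) :
    (nsq (10 ^ m) H (p / 10 ^ E2 m H τ) : ℝ)
      - |((∑ k ∈ range (10 ^ m), G (10 ^ m) H k (p / 10 ^ E2 m H τ) *
          G (10 ^ m) (2 * (H + 1)) k (p / 10 ^ E1 m H τ) : ℤ) : ℝ)|
      - |((∑ k ∈ range (10 ^ m), G (10 ^ m) H k (p / 10 ^ E2 m H τ) *
          G (10 ^ m) (H + 1) k (p / 10 ^ τ) : ℤ) : ℝ)|
      - ((10 ^ m : ℕ) : ℝ) * (lam / 2 * nsq (10 ^ m) H (p / 10 ^ E2 m H τ) + 1 / (2 * lam)) ≤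
    ∑ k ∈ range (10 ^ m), (G (10 ^ m) H k (p / 10 ^ E2 m H τ) : ℝ) *
      ((G (10 ^ m) (4 * (H + 1) - 1) k (p / 10 ^ τ) + ((if v = k then (10 : ℤ) ^ m else 0) - 1) : ℤ) : ℝ) := by
  set B := 10 ^ m with hB
  have hBp : 0 < B := B_pos
  set c : ℕ → ℤ := fun k => G B H k (p / 10 ^ E2 m H τ) with hc
  have key : ∑ k ∈ range B, c k * (G B (4 * (H + 1) - 1) k (p / 10 ^ τ) + ((if v = k then (10 : ℤ) ^ m else 0) - 1)) =
      (∑ k ∈ range B, c k * G B (H + 1) k (p / 10 ^ τ)) +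
      (∑ k ∈ range B, c k * G B (2 * (H + 1)) k (p / 10 ^ E1 m H τ)) +
      nsq B H (p / 10 ^ E2 m H τ) + B * c v := by
    have h0 : ∑ k ∈ range B, c k = 0 := sum_k_G H _ hBp
    have h1 : ∑ k ∈ range B, c k * (if v = k then (10 : ℤ) ^ m else 0) = B * c v := by
      simp only [mul_ite, mul_zero]
      rw [Finset.sum_ite_eq, if_pos (mem_range.mpr hv), hB]
      push_cast; ring
    have h2 : nsq B H (p / 10 ^ E2 m H τ) = ∑ k ∈ range B, c k * c k := by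
      unfold nsq; exact Finset.sum_congr rfl fun k _ => by rw [hc]; ring
    rw [h2, ← h1, ← Finset.sum_add_distrib, ← Finset.sum_add_distrib, ← Finset.sum_add_distrib]
    have h3 : ∀ k ∈ range B, c k * (G B (4 * (H + 1) - 1) k (p / 10 ^ τ) + ((if v = k then (10 : ℤ) ^ m else 0) - 1)) =
        (c k * G B (H + 1) k (p / 10 ^ τ) + c k * G B (2 * (H + 1)) k (p / 10 ^ E1 m H τ) + c k * c k +
          c k * (if v = k then (10 : ℤ) ^ m else 0)) - c k := by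
      intro k _
      rw [hB, G_three h]
      simp only [hc, hB]
      ring
    rw [Finset.sum_congr rfl h3, Finset.sum_sub_distrib, h0, sub_zero]
  have keyR : ∑ k ∈ range B, (G B H k (p / 10 ^ E2 m H τ) : ℝ) *
      ((G B (4 * (H + 1) - 1) k (p / 10 ^ τ) + ((if v = k then (10 : ℤ) ^ m else 0) - 1) : ℤ) : ℝ) =
      ((∑ k ∈ range B, c k * G B (H + 1) k (p / 10 ^ τ) : ℤ) : ℝ) +
      ((∑ k ∈ range B, c k * G B (2 * (H + 1)) k (p / 10 ^ E1 m H τ) : ℤ) : ℝ) +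
      (nsq B H (p / 10 ^ E2 m H τ) : ℝ) + (B : ℝ) * (c v : ℝ) := by
    rw [← Int.cast_natCast (R := ℝ) B, ← Int.cast_mul, ← Int.cast_add, ← Int.cast_add, ← Int.cast_add, ← key,
      Int.cast_sum]
    exact Finset.sum_congr rfl fun k _ => by rw [Int.cast_mul]
  rw [keyR]
  have g1 : |(c v : ℝ)| ≤ lam / 2 * nsq B H (p / 10 ^ E2 m H τ) + 1 / (2 * lam) := by
    have h1 := abs_le_lam (c v : ℝ) lam hl
    have h2 : (c v : ℝ) ^ 2 ≤ nsq B H (p / 10 ^ E2 m H τ) := by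
      have h3 : (c v) ^ 2 ≤ nsq B H (p / 10 ^ E2 m H τ) := by
        unfold nsq
        exact Finset.single_le_sum (f := fun k => (G B H k (p / 10 ^ E2 m H τ)) ^ 2)
          (fun k _ => sq_nonneg _) (mem_range.mpr hv)
      exact_mod_cast h3
    have h4 := mul_le_mul_of_nonneg_left h2 (show 0 ≤ lam / 2 by positivity)
    linarith
  have hBr : (0 : ℝ) ≤ (B : ℝ) := Nat.cast_nonneg _
  have g2 := mul_le_mul_of_nonneg_left g1 hBr
  have g3 : -((B : ℝ) * |(c v : ℝ)|) ≤ (B : ℝ) * (c v : ℝ) := by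
    have := mul_le_mul_of_nonneg_left (neg_abs_le (c v : ℝ)) hBr
    linarith
  have g4 := neg_abs_le ((∑ k ∈ range B, c k * G B (H + 1) k (p / 10 ^ τ) : ℤ) : ℝ)
  have g5 := neg_abs_le ((∑ k ∈ range B, c k * G B (2 * (H + 1)) k (p / 10 ^ E1 m H τ) : ℤ) : ℝ)
  simp only [hc] at g2 g3 g4 g5 ⊢
  linarith

/-- sum over the primes of the lower bounds -/
theorem low_sum {C : ℝ} (hC1 : 1 ≤ C) (hC : BTC C) (h : Par m H τ) {δ : ℝ} (hδ : 0 < δ)
    (hBδ : 4 / δ ^ 2 ≤ ((10 ^ m : ℕ) : ℝ)) (hHδ : 4 * C ^ 2 / δ ^ 2 ≤ H)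
    (hPL : (10 ^ EL m H : ℝ) / (5 * EL m H) ≤ (PL (EL m H)).card) :
    H * ((10 ^ m : ℕ) : ℝ) ^ 2 / 4 * (1 / 5 - 16 * C / (10 ^ m : ℕ)) * WW m H
      - (9 * C + 1) * (H * ((10 ^ m : ℕ) : ℝ) ^ 2 * δ) * WW m H ≤
    ∑ p ∈ PL (EL m H), ((nsq (10 ^ m) H (p / 10 ^ E2 m H τ) : ℝ)
      - |((∑ k ∈ range (10 ^ m), G (10 ^ m) H k (p / 10 ^ E2 m H τ) *
          G (10 ^ m) (2 * (H + 1)) k (p / 10 ^ E1 m H τ) : ℤ) : ℝ)|
      - |((∑ k ∈ range (10 ^ m), G (10 ^ m) H k (p / 10 ^ E2 m H τ) *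
          G (10 ^ m) (H + 1) k (p / 10 ^ τ) : ℤ) : ℝ)|
      - ((10 ^ m : ℕ) : ℝ) * (δ / (2 * C) / ((10 ^ m : ℕ) : ℝ) / 2 * nsq (10 ^ m) H (p / 10 ^ E2 m H τ) +
        1 / (2 * (δ / (2 * C) / ((10 ^ m : ℕ) : ℝ))))) := by
  have hBr : (0 : ℝ) < ((10 ^ m : ℕ) : ℝ) := by exact_mod_cast B_pos
  have p1 := P1 hC1 hC h
  have p2 := P2 hC1 hC h
  have p3 := P3 hC1 hC h
  have p4 := P4 hC1 hC h hδ hBδ
  have p5 := P5 hC1 hC h hδ hBδ
  have hW := WW_pos h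
  have hC0 : 0 < C := by linarith
  rw [Finset.sum_sub_distrib, Finset.sum_sub_distrib, Finset.sum_sub_distrib, ← Finset.mul_sum,
    Finset.sum_add_distrib, ← Finset.mul_sum]
  simp only [Finset.sum_const, nsmul_eq_mul]
  -- main term
  have q1 : H * ((10 ^ m : ℕ) : ℝ) ^ 2 / 4 * ((PL (EL m H)).card -
      ∑ p ∈ PL (EL m H), (if 4 * nsq (10 ^ m) H (p / 10 ^ E2 m H τ) < H * ((10 ^ m : ℕ) : ℤ) ^ 2 then (1 : ℝ) else 0)) ≤
      ∑ p ∈ PL (EL m H), (nsq (10 ^ m) H (p / 10 ^ E2 m H τ) : ℝ) := by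
    have e1 : ((PL (EL m H)).card : ℝ) = ∑ p ∈ PL (EL m H), (1 : ℝ) := by simp
    rw [e1, ← Finset.sum_sub_distrib, Finset.mul_sum]
    refine Finset.sum_le_sum fun p _ => ?_
    split_ifs with hb
    · rw [sub_self, mul_zero]; exact nsqR_nonneg _ _ _
    · rw [sub_zero, mul_one]
      have hb' : (H : ℤ) * ((10 ^ m : ℕ) : ℤ) ^ 2 ≤ 4 * nsq (10 ^ m) H (p / 10 ^ E2 m H τ) := not_lt.mp hb
      have hb2 : (H : ℝ) * ((10 ^ m : ℕ) : ℝ) ^ 2 ≤ 4 * (nsq (10 ^ m) H (p / 10 ^ E2 m H τ) : ℝ) := by exact_mod_cast hb'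
      linarith
  have hPL' : 1 / 5 * WW m H ≤ (PL (EL m H)).card := by
    refine le_trans (le_of_eq ?_) hPL
    unfold WW
    have : (0 : ℝ) < EL m H := by exact_mod_cast EL_pos h
    field_simp
  have q2 : H * ((10 ^ m : ℕ) : ℝ) ^ 2 / 4 * (1 / 5 - 16 * C / (10 ^ m : ℕ)) * WW m H ≤
      ∑ p ∈ PL (EL m H), (nsq (10 ^ m) H (p / 10 ^ E2 m H τ) : ℝ) := by
    refine le_trans ?_ q1
    rw [mul_assoc]
    refine mul_le_mul_of_nonneg_left ?_ (by positivity)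
    rw [sub_mul]
    linarith
  -- garbage
  have q3 : ((10 ^ m : ℕ) : ℝ) * (δ / (2 * C) / ((10 ^ m : ℕ) : ℝ) / 2 *
      ∑ p ∈ PL (EL m H), (nsq (10 ^ m) H (p / 10 ^ E2 m H τ) : ℝ) +
      (PL (EL m H)).card * (1 / (2 * (δ / (2 * C) / ((10 ^ m : ℕ) : ℝ))))) ≤
      (H * ((10 ^ m : ℕ) : ℝ) ^ 2 * δ) * WW m H := by
    have r1 : δ / (2 * C) / ((10 ^ m : ℕ) : ℝ) / 2 *
        ∑ p ∈ PL (EL m H), (nsq (10 ^ m) H (p / 10 ^ E2 m H τ) : ℝ) ≤
        δ / (2 * C) / ((10 ^ m : ℕ) : ℝ) / 2 * (2 * C * (H * ((10 ^ m : ℕ) : ℝ) ^ 2) * WW m H) :=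
      mul_le_mul_of_nonneg_left p2 (by positivity)
    have r2 : (PL (EL m H)).card * (1 / (2 * (δ / (2 * C) / ((10 ^ m : ℕ) : ℝ)))) ≤
        2 * C * WW m H * (1 / (2 * (δ / (2 * C) / ((10 ^ m : ℕ) : ℝ)))) :=
      mul_le_mul_of_nonneg_right p3 (by positivity)
    have r3 := mul_le_mul_of_nonneg_left (add_le_add r1 r2) hBr.le
    refine r3.trans ?_
    have e1 : ((10 ^ m : ℕ) : ℝ) * (δ / (2 * C) / ((10 ^ m : ℕ) : ℝ) / 2 * (2 * C * (H * ((10 ^ m : ℕ) : ℝ) ^ 2) * WW m H) +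
        2 * C * WW m H * (1 / (2 * (δ / (2 * C) / ((10 ^ m : ℕ) : ℝ))))) =
        (H * ((10 ^ m : ℕ) : ℝ) ^ 2 * (δ / 2)) * WW m H + (((10 ^ m : ℕ) : ℝ) ^ 2 * (2 * C ^ 2 / δ)) * WW m H := by
      field_simp
    rw [e1]
    have e2 : 2 * C ^ 2 / δ ≤ H * (δ / 2) := by
      rw [div_le_iff₀ hδ]
      rw [div_le_iff₀ (by positivity)] at hHδ
      nlinarith
    have e3 : (((10 ^ m : ℕ) : ℝ) ^ 2 * (2 * C ^ 2 / δ)) * WW m H ≤
        (((10 ^ m : ℕ) : ℝ) ^ 2 * (H * (δ / 2))) * WW m H :=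
      mul_le_mul_of_nonneg_right (mul_le_mul_of_nonneg_left e2 (by positivity)) hW.le
    linarith
  linarith

/-- the main inequality -/
theorem main_ineq {d : ℕ → ℕ} (hd : HD d) {C : ℝ} (hC1 : 1 ≤ C) (hC : BTC C) (hm : 1 ≤ m) (hH : 1 ≤ H)
    {δ : ℝ} (hδ : 0 < δ)
    (hBδ : 4 / δ ^ 2 ≤ ((10 ^ m : ℕ) : ℝ)) (hHδ : 4 * C ^ 2 / δ ^ 2 ≤ H)
    (hPL : (10 ^ EL m H : ℝ) / (5 * EL m H) ≤ (PL (EL m H)).card)
    (M : ℝ) (hM0 : 0 ≤ M) (hM : ∀ k < 10 ^ m, ∀ j ≤ EL m H * 10 ^ EL m H + 1, |(Del d m k j : ℝ)| ≤ M) :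
    H * ((10 ^ m : ℕ) : ℝ) ^ 2 / 4 * (1 / 5 - 16 * C / (10 ^ m : ℕ)) * WW m H ≤
      (9 * C + 1) * (H * ((10 ^ m : ℕ) : ℝ) ^ 2 * δ) * WW m H +
      ((10 ^ m : ℕ) : ℝ) * (2 * (((10 ^ m : ℕ) : ℝ) * H) * M * ((10 : ℝ) ^ (m * (H + 1)) + 1)) := by
  obtain ⟨t0, ht0, hdvd⟩ := exists_t0 hm (OO (na (EL m H)))
  have hpar : Par m H (m - t0) := ⟨hm, hH, by omega, by omega⟩
  set τ := m - t0 with hτ
  set n0 := na (EL m H) with hn0
  set N := NN (EL m H) with hN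
  set B := 10 ^ m with hB
  have hBp : 0 < B := B_pos
  obtain ⟨j0, hj0⟩ := hdvd
  have hlpos : 1 ≤ EL m H := EL_pos hpar
  have hidx : ∀ i ≤ N, (OO (n0 + i) + t0) / m = j0 + 4 * (H + 1) * i ∧ m ∣ OO (n0 + i) + t0 := by
    intro i hi
    have e1 : OO (n0 + i) + t0 = m * (j0 + 4 * (H + 1) * i) := by
      have e2 : OO (n0 + i) = OO n0 + EL m H * i := OO_add hlpos hi
      have e3 : EL m H * i = m * (4 * (H + 1) * i) := by rw [EL_eq]; ring
      rw [mul_add, ← hj0, ← e3]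
      omega
    rw [e1]
    exact ⟨Nat.mul_div_cancel_left _ (by omega), Dvd.intro _ rfl⟩
  set D : ℕ → ℕ → ℝ := fun k i => (Del d m k (j0 + 4 * (H + 1) * i) : ℝ) with hD
  have hDM : ∀ k < B, ∀ i ≤ N, |D k i| ≤ M := by
    intro k hk i hi
    refine hM k hk _ ?_
    have h1 := (hidx i hi).1
    rw [← h1]
    have h2 : OO (n0 + i) ≤ EL m H * 10 ^ EL m H := by
      rw [OO_add hlpos hi]
      refine le_trans ?_ (OO_top hlpos)
      exact Nat.add_le_add_left (Nat.mul_le_mul_left _ hi) _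
    have h3 : (OO (n0 + i) + t0) / m ≤ OO (n0 + i) + 1 := by
      apply Nat.div_le_of_le_mul
      have : OO (n0 + i) ≤ m * OO (n0 + i) := Nat.le_mul_of_pos_left _ (by omega)
      rw [mul_add]
      omega
    omega
  -- one step
  set vv : ℕ → ℕ := fun i => VV d (m * (j0 + 4 * (H + 1) * i + 4 * (H + 1))) % 10 ^ m with hvv
  have hstep : ∀ k, ∀ i < N, D k (i + 1) - D k i =
      ((G B (4 * (H + 1) - 1) k (pn (n0 + i) / 10 ^ τ) + ((if vv i = k then (10 : ℤ) ^ m else 0) - 1) : ℤ) : ℝ) := by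
    intro k i hi
    have h1 := Del_step hd (m := m) (h := 4 * (H + 1)) (n := n0 + i) (t0 := t0) k (by omega)
      (by rw [len_eq hlpos hi, EL_eq]) ht0 (hidx i hi.le).2
    rw [(hidx i hi.le).1] at h1
    rw [← h1]
    simp only [hD]
    push_cast
    rw [mul_add, mul_one, ← add_assoc]
  -- lower bound for the double sum
  set lam : ℝ := δ / (2 * C) / ((B : ℕ) : ℝ) with hlam
  have hC0 : 0 < C := by linarith
  have hBr : (0 : ℝ) < (B : ℝ) := by exact_mod_cast hBp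
  have hlam0 : 0 < lam := by positivity
  have low := low_sum hC1 hC hpar hδ hBδ hHδ hPL
  rw [sum_PL] at low
  have hsum : ∑ i ∈ range N, ((nsq (10 ^ m) H (pn (n0 + i) / 10 ^ E2 m H τ) : ℝ)
      - |((∑ k ∈ range (10 ^ m), G (10 ^ m) H k (pn (n0 + i) / 10 ^ E2 m H τ) *
          G (10 ^ m) (2 * (H + 1)) k (pn (n0 + i) / 10 ^ E1 m H τ) : ℤ) : ℝ)|
      - |((∑ k ∈ range (10 ^ m), G (10 ^ m) H k (pn (n0 + i) / 10 ^ E2 m H τ) *
          G (10 ^ m) (H + 1) k (pn (n0 + i) / 10 ^ τ) : ℤ) : ℝ)|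
      - ((10 ^ m : ℕ) : ℝ) * (lam / 2 * nsq (10 ^ m) H (pn (n0 + i) / 10 ^ E2 m H τ) +
        1 / (2 * lam))) ≤
      ∑ i ∈ range N, ∑ k ∈ range B, (G B H k (pn (n0 + i) / 10 ^ E2 m H τ) : ℝ) * (D k (i + 1) - D k i) := by
    refine Finset.sum_le_sum fun i hi => ?_
    have h1 := one_prime hpar (pn (n0 + i)) (vv i) (Nat.mod_lt _ (by positivity)) lam hlam0
    refine h1.trans (le_of_eq ?_)
    refine Finset.sum_congr rfl fun k _ => ?_
    rw [hstep k i (mem_range.mp hi)]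
  -- upper bound by summation by parts
  set U := 10 ^ (EL m H - E2 m H τ) with hU
  have hup : ∑ i ∈ range N, ∑ k ∈ range B, (G B H k (pn (n0 + i) / 10 ^ E2 m H τ) : ℝ) * (D k (i + 1) - D k i) ≤
      (B : ℝ) * (2 * ((B : ℝ) * H) * M * ((10 : ℝ) ^ (m * (H + 1)) + 1)) := by
    rw [Finset.sum_comm]
    have h1 : ∀ k ∈ range B, ∑ i ∈ range N, (G B H k (pn (n0 + i) / 10 ^ E2 m H τ) : ℝ) * (D k (i + 1) - D k i) ≤
        2 * ((B : ℝ) * H) * M * ((10 : ℝ) ^ (m * (H + 1)) + 1) := by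
      intro k hk
      have h2 := abel (K := (B : ℝ) * H) (M := M) hM0 (by positivity) (fun v => (G B H k v : ℝ))
        (fun v => by
          have := abs_G_le (D := B) (q := H) (k := k) (w := v) hBp
          have h3 : |((G B H k v : ℤ) : ℝ)| ≤ (((B : ℤ) * (H : ℤ) : ℤ) : ℝ) := by
            rw [← Int.cast_abs]; exact_mod_cast this
          simpa using h3)
        (fun i => min (pn (n0 + i) / 10 ^ E2 m H τ) U)
        (fun a b hab => min_le_min (Nat.div_le_div_right (pn_mono.monotone (by omega))) le_rfl)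
        (D k) N U (min_le_right _ _) (hDM k (mem_range.mp hk))
      have h3 : ∑ i ∈ range N, (G B H k (min (pn (n0 + i) / 10 ^ E2 m H τ) U) : ℝ) * (D k (i + 1) - D k i) =
          ∑ i ∈ range N, (G B H k (pn (n0 + i) / 10 ^ E2 m H τ) : ℝ) * (D k (i + 1) - D k i) := by
        refine Finset.sum_congr rfl fun i hi => ?_
        have h4 : pn (n0 + i) / 10 ^ E2 m H τ < U := by
          have h5 := pn_mem (mem_range.mp hi)
          unfold PL at h5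
          rw [mem_filter, mem_range] at h5
          rw [Nat.div_lt_iff_lt_mul (by positivity), hU, ← pow_add, Nat.sub_add_cancel (E2_le hpar)]
          exact h5.1
        rw [min_eq_left h4.le]
      rw [h3] at h2
      have h4 := (le_abs_self _).trans h2
      refine h4.trans (mul_le_mul_of_nonneg_left ?_ (by positivity))
      have h5 : (U : ℝ) ≤ (10 : ℝ) ^ (m * (H + 1)) := by
        have : U ≤ 10 ^ (m * (H + 1)) := by
          rw [hU]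
          refine Nat.pow_le_pow_right (by norm_num) ?_
          rw [ELE2 hpar]
          have e : m * (H + 1) = m * H + m := by ring
          omega
        exact_mod_cast this
      linarith
    refine (Finset.sum_le_sum h1).trans ?_
    simp
  have := low.trans (hsum.trans hup)
  linarith

end Pool.Agent.H426R3.CP
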