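import Mathlib
import Pool.Agent.H426R3.CP.Ineq

set_option autoImplicit false

/-! The contradiction. -/

namespace Pool.Agent.H426R3.CP

open Finset Pool.Agent.H426R3.SN Filter

/-- the two upper-bound halves of the law of the iterated logarithm -/
def UB (d : ℕ → ℕ) (m k : ℕ) : Prop :=
  (∀ᶠ n : ℕ in atTop, ((cnt d m k n : ℝ) - (n : ℝ) / (10 : ℝ) ^ m) /
    Real.sqrt (2 * (n : ℝ) * Real.log (Real.log (n : ℝ))) < Real.sqrt ((10 : ℝ) ^ m - 1) / (10 : ℝ) ^ m + 1) ∧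
  (∀ᶠ n : ℕ in atTop, -(Real.sqrt ((10 : ℝ) ^ m - 1) / (10 : ℝ) ^ m) - 1 <
    ((cnt d m k n : ℝ) - (n : ℝ) / (10 : ℝ) ^ m) / Real.sqrt (2 * (n : ℝ) * Real.log (Real.log (n : ℝ))))

theorem log_bounds {n : ℕ} (hn : 3 ≤ n) : 0 < Real.log (Real.log (n : ℝ)) ∧
    Real.log (Real.log (n : ℝ)) ≤ Real.log n := by
  have h3 : (3 : ℝ) ≤ n := by exact_mod_cast hn
  have h1 : 1 < Real.log (n : ℝ) := by
    rw [Real.lt_log_iff_exp_lt (by linarith)]
    have := Real.exp_one_lt_d9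
    linarith
  refine ⟨Real.log_pos h1, ?_⟩
  have := Real.log_le_sub_one_of_pos (show 0 < Real.log (n : ℝ) by linarith)
  linarith

theorem UB_bound {d : ℕ → ℕ} {m k : ℕ} (h : UB d m k) : ∀ᶠ n : ℕ in atTop,
    |(Del d m k n : ℝ)| ≤ 2 * (10 : ℝ) ^ m * Real.sqrt (2 * (n : ℝ) * Real.log n) := by
  obtain ⟨h1, h2⟩ := h
  filter_upwards [h1, h2, eventually_ge_atTop 3] with n a1 a2 hn
  obtain ⟨l1, l2⟩ := log_bounds hn
  have hn0 : (0 : ℝ) < n := by exact_mod_cast (by omega : 0 < n)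
  set s := Real.sqrt (2 * (n : ℝ) * Real.log (Real.log (n : ℝ))) with hs
  have hs0 : 0 < s := Real.sqrt_pos.mpr (by positivity)
  have hss : s ≤ Real.sqrt (2 * (n : ℝ) * Real.log n) :=
    Real.sqrt_le_sqrt (mul_le_mul_of_nonneg_left l2 (by positivity))
  have hB1 : (1 : ℝ) ≤ (10 : ℝ) ^ m := one_le_pow₀ (by norm_num)
  have hB0 : (0 : ℝ) < (10 : ℝ) ^ m := by positivity
  have hq : Real.sqrt ((10 : ℝ) ^ m - 1) / (10 : ℝ) ^ m ≤ 1 := by
    rw [div_le_one hB0]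
    rw [Real.sqrt_le_left (by positivity)]
    nlinarith
  rw [div_lt_iff₀ hs0] at a1
  rw [lt_div_iff₀ hs0] at a2
  have b1 : (cnt d m k n : ℝ) - (n : ℝ) / (10 : ℝ) ^ m ≤ 2 * s := by nlinarith
  have b2 : -(2 * s) ≤ (cnt d m k n : ℝ) - (n : ℝ) / (10 : ℝ) ^ m := by nlinarith
  have e : (Del d m k n : ℝ) = (10 : ℝ) ^ m * ((cnt d m k n : ℝ) - (n : ℝ) / (10 : ℝ) ^ m) := by
    unfold Del
    push_cast
    field_simp
  rw [e, abs_mul, abs_of_pos hB0]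
  have b3 : |(cnt d m k n : ℝ) - (n : ℝ) / (10 : ℝ) ^ m| ≤ 2 * s := abs_le.mpr ⟨b2, b1⟩
  calc (10 : ℝ) ^ m * |(cnt d m k n : ℝ) - (n : ℝ) / (10 : ℝ) ^ m| ≤ (10 : ℝ) ^ m * (2 * s) :=
        mul_le_mul_of_nonneg_left b3 hB0.le
    _ = 2 * (10 : ℝ) ^ m * s := by ring
    _ ≤ _ := mul_le_mul_of_nonneg_left hss (by positivity)

theorem Del_triv (d : ℕ → ℕ) (m k n : ℕ) : |(Del d m k n : ℝ)| ≤ (10 : ℝ) ^ m * n := by
  have h1 : cnt d m k n ≤ n := by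
    unfold cnt
    exact (card_filter_le _ _).trans (by simp)
  have h2 : (cnt d m k n : ℝ) ≤ n := by exact_mod_cast h1
  have hB1 : (1 : ℝ) ≤ (10 : ℝ) ^ m := one_le_pow₀ (by norm_num)
  have h0 : (0 : ℝ) ≤ cnt d m k n := Nat.cast_nonneg _
  have hn : (0 : ℝ) ≤ n := Nat.cast_nonneg _
  unfold Del
  push_cast
  have h3 : 0 ≤ (10 : ℝ) ^ m * cnt d m k n := by positivity
  have h4 : (10 : ℝ) ^ m * cnt d m k n ≤ (10 : ℝ) ^ m * n := mul_le_mul_of_nonneg_left h2 (by positivity)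
  have h5 : (n : ℝ) ≤ (10 : ℝ) ^ m * n := le_mul_of_one_le_left hn hB1
  rw [abs_le]
  constructor <;> linarith

theorem Del_bound {d : ℕ → ℕ} {m : ℕ} (h : ∀ k < 10 ^ m, UB d m k) : ∃ K0 : ℝ, 0 ≤ K0 ∧
    ∀ J : ℕ, 1 ≤ J → ∀ k < 10 ^ m, ∀ j ≤ J,
      |(Del d m k j : ℝ)| ≤ K0 + 2 * (10 : ℝ) ^ m * Real.sqrt (2 * (J : ℝ) * Real.log J) := by
  have h1 : ∀ᶠ n : ℕ in atTop, ∀ k ∈ range (10 ^ m),
      |(Del d m k n : ℝ)| ≤ 2 * (10 : ℝ) ^ m * Real.sqrt (2 * (n : ℝ) * Real.log n) := by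
    rw [Filter.eventually_all_finset]
    intro k hk
    exact UB_bound (h k (mem_range.mp hk))
  obtain ⟨n0, hn0⟩ := eventually_atTop.mp h1
  refine ⟨(10 : ℝ) ^ m * n0, by positivity, ?_⟩
  intro J hJ k hk j hj
  have hJ' : (1 : ℝ) ≤ J := by exact_mod_cast hJ
  rcases le_or_gt n0 j with h2 | h2
  · have h3 := hn0 j h2 k (mem_range.mpr hk)
    refine h3.trans ?_
    have h4 : 2 * (10 : ℝ) ^ m * Real.sqrt (2 * (j : ℝ) * Real.log j) ≤
        2 * (10 : ℝ) ^ m * Real.sqrt (2 * (J : ℝ) * Real.log J) := by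
      refine mul_le_mul_of_nonneg_left (Real.sqrt_le_sqrt ?_) (by positivity)
      rcases Nat.eq_zero_or_pos j with h5 | h5
      · subst h5
        simp only [Nat.cast_zero, mul_zero, zero_mul]
        have := Real.log_nonneg hJ'
        positivity
      · have h6 : (1 : ℝ) ≤ j := by exact_mod_cast h5
        have h7 : (j : ℝ) ≤ J := by exact_mod_cast hj
        have h8 : Real.log j ≤ Real.log J := Real.log_le_log (by linarith) h7
        have h9 : 0 ≤ Real.log j := Real.log_nonneg h6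
        exact mul_le_mul (by linarith) h8 h9 (by positivity)
    have h5 : 0 ≤ (10 : ℝ) ^ m * n0 := by positivity
    linarith
  · have h3 := Del_triv d m k j
    have h4 : (10 : ℝ) ^ m * j ≤ (10 : ℝ) ^ m * n0 := by
      refine mul_le_mul_of_nonneg_left ?_ (by positivity)
      exact_mod_cast h2.le
    have h5 : 0 ≤ 2 * (10 : ℝ) ^ m * Real.sqrt (2 * (J : ℝ) * Real.log J) := by positivity
    linarith

theorem log_ten_le : Real.log 10 ≤ 3 := by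
  rw [Real.log_le_iff_le_exp (by norm_num)]
  have h1 := Real.exp_one_gt_d9
  have h2 : Real.exp 3 = Real.exp 1 ^ 3 := by rw [← Real.exp_nat_mul]; norm_num
  rw [h2]
  have h3 : (2.7 : ℝ) ^ 3 ≤ Real.exp 1 ^ 3 := pow_le_pow_left₀ (by norm_num) (by linarith) 3
  norm_num at h3 ⊢
  linarith

theorem J_bound {l x : ℕ} (hl : 1 ≤ l) (hx : l = 2 * x) :
    Real.sqrt (2 * ((l * 10 ^ l + 1 : ℕ) : ℝ) * Real.log ((l * 10 ^ l + 1 : ℕ) : ℝ)) ≤ 5 * l * (10 : ℝ) ^ x := by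
  rw [Real.sqrt_le_left (by positivity)]
  have hl' : (1 : ℝ) ≤ l := by exact_mod_cast hl
  have hp : (1 : ℝ) ≤ (10 : ℝ) ^ l := one_le_pow₀ (by norm_num)
  have hlp : (l : ℝ) + 1 ≤ (10 : ℝ) ^ l := by
    have h1 : l < 10 ^ l := Nat.lt_pow_self (by norm_num)
    exact_mod_cast h1
  have h1 : ((l * 10 ^ l + 1 : ℕ) : ℝ) ≤ 2 * l * (10 : ℝ) ^ l := by
    push_cast
    nlinarith
  have h0 : (1 : ℝ) ≤ ((l * 10 ^ l + 1 : ℕ) : ℝ) := by push_cast; nlinarith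
  have h2 : Real.log ((l * 10 ^ l + 1 : ℕ) : ℝ) ≤ 6 * l := by
    have h3 : ((l * 10 ^ l + 1 : ℕ) : ℝ) ≤ (10 : ℝ) ^ (2 * l) := by
      rw [two_mul, pow_add]
      push_cast
      nlinarith
    have h4 := Real.log_le_log (by linarith) h3
    rw [Real.log_pow] at h4
    have h5 := log_ten_le
    refine h4.trans ?_
    push_cast
    nlinarith
  have h3 : 0 ≤ Real.log ((l * 10 ^ l + 1 : ℕ) : ℝ) := Real.log_nonneg h0
  calc 2 * ((l * 10 ^ l + 1 : ℕ) : ℝ) * Real.log ((l * 10 ^ l + 1 : ℕ) : ℝ) ≤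
      2 * (2 * l * (10 : ℝ) ^ l) * (6 * l) :=
        mul_le_mul (mul_le_mul_of_nonneg_left h1 (by norm_num)) h2 h3 (by positivity)
    _ = 24 * ((l : ℝ) ^ 2 * (10 : ℝ) ^ l) := by ring
    _ ≤ 25 * ((l : ℝ) ^ 2 * (10 : ℝ) ^ l) := by
        have : 0 ≤ (l : ℝ) ^ 2 * (10 : ℝ) ^ l := by positivity
        linarith
    _ = (5 * l * (10 : ℝ) ^ x) ^ 2 := by
        have : (10 : ℝ) ^ l = ((10 : ℝ) ^ x) ^ 2 := by rw [← pow_mul, hx, mul_comm]
        rw [this]; ring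

theorem fin_contra {d : ℕ → ℕ} (hd : HD d) (h : ∀ m, 1 ≤ m → ∀ k < 10 ^ m, UB d m k) : False := by
  obtain ⟨C, hC1, hC⟩ := exists_BTC
  obtain ⟨l0, hl0⟩ := PL_card
  have hC0 : 0 < C := by linarith
  set δ : ℝ := 1 / (480 * C) with hδ
  have hδ0 : 0 < δ := by positivity
  -- choose m
  obtain ⟨m1, hm1⟩ := pow_unbounded_of_one_lt (160 * C + 4 / δ ^ 2) (show (1 : ℝ) < 10 by norm_num)
  set m := m1 + 1 with hm
  have hBbig : 160 * C + 4 / δ ^ 2 ≤ (10 : ℝ) ^ m := by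
    have h1 : (0 : ℝ) < (10 : ℝ) ^ m1 := by positivity
    have h2 : (10 : ℝ) ^ m = (10 : ℝ) ^ m1 * 10 := by rw [hm]; exact pow_succ _ _
    rw [h2]
    linarith
  have hm1' : 1 ≤ m := by omega
  have hB0 : (0 : ℝ) < (10 : ℝ) ^ m := by positivity
  have hcast : ((10 ^ m : ℕ) : ℝ) = (10 : ℝ) ^ m := by push_cast; rfl
  obtain ⟨K0, hK0, hK⟩ := Del_bound (h m hm1')
  -- choose H
  have hlim : Tendsto (fun n : ℕ => (n : ℝ) ^ 2 / (10 : ℝ) ^ n) atTop (nhds 0) :=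
    tendsto_pow_const_div_const_pow_of_one_lt 2 (by norm_num)
  set A : ℝ := 4 * (K0 + 10 * (10 : ℝ) ^ m) * (16 * m ^ 2) / δ with hA
  have hmr : (1 : ℝ) ≤ m := by exact_mod_cast hm1'
  have hA0 : 0 < A := by positivity
  have hev := hlim.eventually_lt_const (show (0 : ℝ) < 1 / A by positivity)
  obtain ⟨H0, hH0⟩ := eventually_atTop.mp hev
  obtain ⟨H1, hH1⟩ := exists_nat_ge (4 * C ^ 2 / δ ^ 2)
  set H := H0 + H1 + l0 + 1 with hHdef
  have hH : 1 ≤ H := by omega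
  have hHr : (1 : ℝ) ≤ H := by exact_mod_cast hH
  have hHδ : 4 * C ^ 2 / δ ^ 2 ≤ H := by
    refine hH1.trans ?_
    exact_mod_cast (by omega : H1 ≤ H)
  have hl : 1 ≤ EL m H := by unfold EL; exact Nat.one_le_iff_ne_zero.mpr (by positivity)
  have hl2 : l0 ≤ EL m H := by
    have : H + 1 ≤ EL m H := by
      unfold EL
      have : 1 ≤ 4 * m := by omega
      calc H + 1 = 1 * (H + 1) := (one_mul _).symm
        _ ≤ 4 * m * (H + 1) := Nat.mul_le_mul_right _ this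
    omega
  have hPL := hl0 _ hl2
  have hδ2 : 0 < 4 / δ ^ 2 := by positivity
  set X : ℝ := (10 : ℝ) ^ (m * (H + 1)) with hX
  have hX1 : 1 ≤ X := one_le_pow₀ (by norm_num)
  have hlR : (EL m H : ℝ) = 4 * m * (H + 1) := by unfold EL; push_cast; ring
  have hlR1 : (1 : ℝ) ≤ EL m H := by exact_mod_cast hl
  set M : ℝ := K0 + 2 * (10 : ℝ) ^ m * (5 * EL m H * X ^ 2) with hM
  have hMb : ∀ k < 10 ^ m, ∀ j ≤ EL m H * 10 ^ EL m H + 1, |(Del d m k j : ℝ)| ≤ M := by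
    intro k hk j hj
    refine (hK (EL m H * 10 ^ EL m H + 1) (by omega) k hk j hj).trans ?_
    rw [hM]
    have hx : EL m H = 2 * (2 * (m * (H + 1))) := by unfold EL; ring
    have h1 := J_bound hl hx
    have h2 : (10 : ℝ) ^ (2 * (m * (H + 1))) = X ^ 2 := by rw [hX, ← pow_mul, mul_comm]
    rw [h2] at h1
    have := mul_le_mul_of_nonneg_left h1 (show 0 ≤ 2 * (10 : ℝ) ^ m by positivity)
    linarith
  have hM0 : 0 ≤ M := by positivity
  have main := main_ineq hd hC1 hC hm1' hH hδ0 (by rw [hcast]; linarith) hHδ hPL M hM0 hMb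
  have hW : WW m H = X ^ 4 / EL m H := by
    unfold WW
    rw [hX, ← pow_mul]
    congr 2
    unfold EL; ring
  have hgrow : A * ((H : ℝ) + 1) ^ 2 ≤ X := by
    have h1 := hH0 (H + 1) (by omega)
    push_cast at h1
    rw [div_lt_div_iff₀ (by positivity) hA0] at h1
    have h2 : (10 : ℝ) ^ (H + 1) ≤ X := by
      rw [hX]
      refine pow_le_pow_right₀ (by norm_num) ?_
      calc H + 1 = 1 * (H + 1) := (one_mul _).symm
        _ ≤ m * (H + 1) := Nat.mul_le_mul_right _ hm1'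
    linarith
  have hWδ : 2 * M * (X + 1) ≤ δ * WW m H := by
    have h1 : M ≤ (K0 + 10 * (10 : ℝ) ^ m) * EL m H * X ^ 2 := by
      have hX2 : 1 ≤ X ^ 2 := one_le_pow₀ hX1
      have h2 : K0 * 1 ≤ K0 * (EL m H * X ^ 2) :=
        mul_le_mul_of_nonneg_left (one_le_mul_of_one_le_of_one_le hlR1 hX2) hK0
      rw [hM]
      linarith [h2]
    have h2 : 2 * M * (X + 1) ≤ 2 * ((K0 + 10 * (10 : ℝ) ^ m) * EL m H * X ^ 2) * (2 * X) :=
      mul_le_mul (mul_le_mul_of_nonneg_left h1 (by norm_num)) (by linarith) (by linarith) (by positivity)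
    refine h2.trans ?_
    rw [hW, ← mul_div_assoc, le_div_iff₀ (by linarith)]
    have h3 : 4 * (K0 + 10 * (10 : ℝ) ^ m) * (EL m H : ℝ) ^ 2 ≤ δ * X := by
      have h4 := mul_le_mul_of_nonneg_left hgrow hδ0.le
      refine le_trans (le_of_eq ?_) h4
      rw [hlR, hA]
      field_simp
      ring
    have h5 := mul_le_mul_of_nonneg_right h3 (show 0 ≤ X ^ 3 by positivity)
    calc 2 * ((K0 + 10 * (10 : ℝ) ^ m) * EL m H * X ^ 2) * (2 * X) * EL m H =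
        4 * (K0 + 10 * (10 : ℝ) ^ m) * (EL m H : ℝ) ^ 2 * X ^ 3 := by ring
      _ ≤ δ * X * X ^ 3 := h5
      _ = _ := by ring
  rw [hcast] at main
  set B : ℝ := (10 : ℝ) ^ m with hB
  have hWpos : 0 < WW m H := by rw [hW]; positivity
  have hHB : 0 < H * B ^ 2 := by positivity
  have h1 : H * B ^ 2 * (1 / 4 * (1 / 5 - 16 * C / B) * WW m H) ≤
      H * B ^ 2 * ((9 * C + 1) * δ * WW m H + 2 * M * (X + 1)) := by
    refine le_trans (le_of_eq ?_) (main.trans (le_of_eq ?_))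
    · ring
    · ring
  have h2 := le_of_mul_le_mul_left h1 hHB
  have h3 : 1 / 4 * (1 / 5 - 16 * C / B) * WW m H ≤ ((9 * C + 2) * δ) * WW m H := by linarith
  have h4 := le_of_mul_le_mul_right h3 hWpos
  have h5 : 16 * C / B ≤ 1 / 10 := by
    rw [div_le_iff₀ hB0]
    linarith
  have h6 : (9 * C + 2) * δ ≤ 11 / 480 := by
    rw [hδ, mul_one_div, div_le_div_iff₀ (by positivity) (by norm_num)]
    linarith
  linarith

end Pool.Agent.H426R3.CP
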